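import Mathlib

/-!
# Ulam's prime process: the definition and its elementary properties

`IsUlam m q`: the primes `q 0 < q 1 < ... < q (m - 1)` are the initial sequence, and `q` is the resulting sequence of
Ulam's process, which never stops.
-/

namespace Pool.Agent.H550U

/-- `q 0 < ... < q (m - 1)` are primes (`m` at least one), and for every `n` with `m - 1 ≤ n` the number `q (n + 1)` is the
least prime of the form `q n + q i - 1` with `i ≤ n`; in particular such a prime exists for every such `n`. -/
def IsUlam (m : ℕ) (q : ℕ → ℕ) : Prop :=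
  1 ≤ m ∧ (∀ i, i < m → (q i).Prime) ∧ (∀ i j, i < j → j < m → q i < q j) ∧
    ∀ n, m - 1 ≤ n →
      (q (n + 1)).Prime ∧
      (∃ i, i ≤ n ∧ q (n + 1) = q n + q i - 1) ∧
      ∀ p : ℕ, p.Prime → (∃ i, i ≤ n ∧ p = q n + q i - 1) → q (n + 1) ≤ p

variable {m : ℕ} {q : ℕ → ℕ}

theorem IsUlam.prime (h : IsUlam m q) (n : ℕ) : (q n).Prime := by
  obtain ⟨hm, h1, -, h3⟩ := h
  by_cases hn : n < m
  · exact h1 n hn
  · obtain ⟨k, rfl⟩ : ∃ k, n = k + 1 := ⟨n - 1, by omega⟩
    exact (h3 k (by omega)).1

theorem IsUlam.step (h : IsUlam m q) {n : ℕ} (hn : m - 1 ≤ n) : ∃ i, i ≤ n ∧ q (n + 1) = q n + (q i - 1) := by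
  obtain ⟨i, hi, he⟩ := (h.2.2.2 n hn).2.1
  have := (h.prime i).one_lt
  exact ⟨i, hi, by omega⟩

theorem IsUlam.lt_succ (h : IsUlam m q) (n : ℕ) : q n < q (n + 1) := by
  by_cases hn : n + 1 < m
  · exact h.2.2.1 n (n + 1) (by omega) hn
  · obtain ⟨i, hi, he⟩ := h.step (n := n) (by omega)
    have := (h.prime i).one_lt
    omega

theorem IsUlam.strictMono (h : IsUlam m q) : StrictMono q := strictMono_nat_of_lt_succ h.lt_succ

/-- a strictly increasing sequence of primes has arbitrarily long gaps, arbitrarily far out -/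
theorem gap_unbounded {q : ℕ → ℕ} (hp : ∀ n, (q n).Prime) (hq : StrictMono q) (B N : ℕ) :
    ∃ n, N ≤ n ∧ q n + B < q (n + 1) := by
  obtain ⟨k, hk⟩ : ∃ k, k = B + q N + 2 := ⟨_, rfl⟩
  have hkf : k ≤ k.factorial := Nat.self_le_factorial k
  have hex : ∃ n, k.factorial + 1 < q n := by
    refine ⟨k.factorial + 2, ?_⟩
    have := hq.id_le (k.factorial + 2)
    simp only [id] at this
    omega
  obtain ⟨n, hn⟩ : ∃ n, n = Nat.find hex := ⟨_, rfl⟩
  have h1 : k.factorial + 1 < q n := by rw [hn]; exact Nat.find_spec hex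
  have h2 : ∀ j, j < n → q j ≤ k.factorial + 1 := by
    intro j hj
    rw [hn] at hj
    exact not_lt.1 (Nat.find_min hex hj)
  have hNn : N < n := by
    by_contra hc
    have := hq.monotone (not_lt.1 hc)
    omega
  have h3 : k.factorial + k < q n := by
    by_contra hc
    obtain ⟨j, hj⟩ : ∃ j, q n = k.factorial + j := ⟨q n - k.factorial, by omega⟩
    have hj2 : 2 ≤ j := by omega
    have hjk : j ≤ k := by omega
    have hd : j ∣ q n := by
      rw [hj]
      exact Nat.dvd_add (Nat.dvd_factorial (by omega) hjk) dvd_rfl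
    have := (Nat.dvd_prime (hp n)).1 hd
    omega
  refine ⟨n - 1, by omega, ?_⟩
  have h4 := h2 (n - 1) (by omega)
  rw [show n - 1 + 1 = n by omega]
  omega

/-- the differences used from some point on cannot all be bounded -/
theorem IsUlam.not_bounded (h : IsUlam m q) (B N : ℕ) : ¬ ∀ n, N ≤ n → q (n + 1) ≤ q n + B := by
  intro hc
  obtain ⟨n, hn, hlt⟩ := gap_unbounded h.prime h.strictMono B N
  have := hc n hn
  omega

theorem mod_three_ne_zero {p : ℕ} (hp : p.Prime) (h3 : p ≠ 3) : p % 3 ≠ 0 := by
  intro h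
  have : 3 ∣ p := Nat.dvd_of_mod_eq_zero h
  have := (Nat.dvd_prime hp).1 this
  omega

/-- If from `N` on no step is equal to `2`, and no later term is `3`, then all terms from `N` on are `1` mod `3`. -/
theorem IsUlam.mod_three (h : IsUlam m q) {N : ℕ} (hN : m - 1 ≤ N) (h3 : ∀ n, N ≤ n → q n ≠ 3)
    (h2 : ∀ n, N ≤ n → q (n + 1) ≠ q n + 2) : ∀ n, N ≤ n → q n % 3 = 1 := by
  by_contra hc
  push Not at hc
  obtain ⟨n₀, hn₀, hne⟩ := hc
  have hz : q n₀ % 3 = 2 := by
    have := mod_three_ne_zero (h.prime n₀) (h3 n₀ hn₀)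
    omega
  -- every later term is 2 mod 3 and every step uses an earlier index
  have key : ∀ n, n₀ ≤ n → q n % 3 = 2 ∧ q (n + 1) ≤ q n + q n₀ := by
    intro n
    induction n using Nat.strong_induction_on with
    | _ n ih =>
      intro hn
      have hn2 : q n % 3 = 2 := by
        rcases Nat.eq_or_lt_of_le hn with he | hlt
        · rw [← he]; exact hz
        · obtain ⟨k, rfl⟩ : ∃ k, n = k + 1 := ⟨n - 1, by omega⟩
          obtain ⟨hk2, -⟩ := ih k (by omega) (by omega)
          obtain ⟨i, hi, he⟩ := h.step (n := k) (by omega)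
          have hi1 := (h.prime i).one_lt
          have hk0 := mod_three_ne_zero (h.prime (k + 1)) (h3 (k + 1) (by omega))
          have hne3 : q i ≠ 3 := by
            intro h3'
            exact h2 k (by omega) (by omega)
          have hi0 := mod_three_ne_zero (h.prime i) hne3
          omega
      refine ⟨hn2, ?_⟩
      obtain ⟨i, hi, he⟩ := h.step (n := n) (by omega)
      have hi1 := (h.prime i).one_lt
      have hk0 := mod_three_ne_zero (h.prime (n + 1)) (h3 (n + 1) (by omega))
      have hne3 : q i ≠ 3 := by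
        intro h3'
        exact h2 n (by omega) (by omega)
      have hi0 := mod_three_ne_zero (h.prime i) hne3
      have hi' : q i % 3 = 1 := by omega
      have hin : i < n₀ := by
        by_contra hcon
        rcases Nat.eq_or_lt_of_le hi with he' | hlt
        · rw [he'] at hi'; omega
        · have := (ih i hlt (by omega)).1
          omega
      have := h.strictMono hin
      omega
  exact h.not_bounded (q n₀) n₀ fun n hn => (key n hn).2

end Pool.Agent.H550U
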