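import Pool.Agent.H550U.Run

/-!
# Affine forms along a run, and a union bound over the initial sets

Along a run started from a set `S` with largest element `p`, the numbers (term minus one) are affine functions
`c (p - 1) + a` of `p - 1`, where `a` depends on the other elements of `S` which have been used. The lists of these affine
functions form the finite set `Ch U j`, where `U` is the set of the used elements.
-/

namespace Pool.Agent.H550U

open Finset

/-- the possible next forms -/
def nextForms (U : Finset ℕ) (l : List (ℕ × ℕ)) : Finset (ℕ × ℕ) :=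
  (U.image fun u => ((l.headD (1, 0)).1, (l.headD (1, 0)).2 + (u - 1))) ∪
    (l.toFinset.image fun b => ((l.headD (1, 0)).1 + b.1, (l.headD (1, 0)).2 + b.2))

/-- lists (newest first) of the affine forms of a run of length `j` which uses elements of `U` and its own terms -/
def Ch (U : Finset ℕ) : ℕ → Finset (List (ℕ × ℕ))
  | 0 => {[(1, 0)]}
  | j + 1 => (Ch U j).biUnion fun l => (nextForms U l).image fun f => f :: l

theorem Ch_length {U : Finset ℕ} : ∀ {j : ℕ} {l : List (ℕ × ℕ)}, l ∈ Ch U j → l.length = j + 1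
  | 0, l, h => by
    rw [Ch, mem_singleton] at h
    rw [h]; rfl
  | j + 1, l, h => by
    rw [Ch, mem_biUnion] at h
    obtain ⟨l', h1, h2⟩ := h
    obtain ⟨f, -, rfl⟩ := mem_image.mp h2
    rw [List.length_cons, Ch_length h1]

theorem Ch_card (U : Finset ℕ) (j : ℕ) : #(Ch U j) ≤ (#U + j) ^ j := by
  induction j with
  | zero => simp [Ch]
  | succ j ih =>
    rw [Ch]
    calc _ ≤ #(Ch U j) * (#U + (j + 1)) := by
          refine card_biUnion_le_card_mul _ _ _ fun l hl => ?_
          refine card_image_le.trans ((card_union_le _ _).trans ?_)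
          have h1 : #(l.toFinset) ≤ j + 1 := (List.toFinset_card_le l).trans (Ch_length hl).le
          have h2 := card_image_le (s := U) (f := fun u => ((l.headD (1, 0)).1, (l.headD (1, 0)).2 + (u - 1)))
          have h3 := card_image_le (s := l.toFinset)
            (f := fun b => ((l.headD (1, 0)).1 + b.1, (l.headD (1, 0)).2 + b.2))
          omega
      _ ≤ (#U + j) ^ j * (#U + (j + 1)) := Nat.mul_le_mul_right _ ih
      _ ≤ (#U + (j + 1)) ^ j * (#U + (j + 1)) := Nat.mul_le_mul_right _ (Nat.pow_le_pow_left (by omega) _)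
      _ = _ := (pow_succ _ _).symm

theorem Ch_mono {U V : Finset ℕ} (h : U ⊆ V) (j : ℕ) : Ch U j ⊆ Ch V j := by
  induction j with
  | zero => exact subset_rfl
  | succ j ih =>
    rw [Ch, Ch]
    intro l hl
    obtain ⟨l', h1, h2⟩ := mem_biUnion.mp hl
    refine mem_biUnion.mpr ⟨l', ih h1, ?_⟩
    refine image_subset_image ?_ h2
    exact union_subset_union (image_subset_image h) subset_rfl

/-- the leading coefficients are between `1` and `2 ^ j` -/
theorem Ch_coeff {U : Finset ℕ} : ∀ {j : ℕ} {l : List (ℕ × ℕ)}, l ∈ Ch U j → ∀ f ∈ l, 1 ≤ f.1 ∧ f.1 ≤ 2 ^ j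
  | 0, l, h, f, hf => by
    rw [Ch, mem_singleton] at h
    rw [h, List.mem_singleton] at hf
    rw [hf]; simp
  | j + 1, l, h, f, hf => by
    rw [Ch, mem_biUnion] at h
    obtain ⟨l', h1, h2⟩ := h
    obtain ⟨g, hg, rfl⟩ := mem_image.mp h2
    have hlen := Ch_length h1
    have hpow : 2 ^ (j + 1) = 2 * 2 ^ j := by ring
    rw [List.mem_cons] at hf
    rcases hf with rfl | hf
    · obtain ⟨x, t, rfl⟩ : ∃ x t, l' = x :: t := by
        cases l' with
        | nil => simp at hlen
        | cons x t => exact ⟨x, t, rfl⟩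
      have hx := Ch_coeff h1 x (List.mem_cons_self)
      rw [nextForms, List.headD_cons, mem_union, mem_image, mem_image] at hg
      rcases hg with ⟨u, -, rfl⟩ | ⟨b, hb, rfl⟩
      · simp only
        omega
      · have hb' := Ch_coeff h1 b (List.mem_toFinset.mp hb)
        simp only
        omega
    · have := Ch_coeff h1 f hf
      omega

/-- the value of a form -/
def val (r : ℕ) (f : ℕ × ℕ) : ℕ := f.1 * r + f.2

/-- The forms along a run. -/
theorem run_chain {m j : ℕ} {q : ℕ → ℕ} (h : IsRun m j q) :
    ∃ U : Finset ℕ, U ⊆ (range (m - 1)).image q ∧ #U ≤ j ∧ ∃ l ∈ Ch U j,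
      l.map (val (q (m - 1) - 1)) = (List.range (j + 1)).reverse.map fun i => q (m - 1 + i) - 1 := by
  classical
  induction j with
  | zero =>
    refine ⟨∅, empty_subset _, by simp, [(1, 0)], by simp [Ch], ?_⟩
    simp [val]
  | succ j ih =>
    obtain ⟨U, hU, hUc, l, hl, hmap⟩ := ih (h.mono (Nat.le_succ j))
    obtain ⟨i, hi, he⟩ := h.step (n := m - 1 + j) (by omega) (by omega)
    have hm := h.1
    have hlen := Ch_length hl
    obtain ⟨x, t, rfl⟩ : ∃ x t, l = x :: t := by
      cases l with
      | nil => simp at hlen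
      | cons x t => exact ⟨x, t, rfl⟩
    have hx : val (q (m - 1) - 1) x = q (m - 1 + j) - 1 := by
      rw [List.range_succ, List.reverse_append, List.reverse_singleton, List.singleton_append, List.map_cons,
        List.map_cons] at hmap
      exact (List.cons_eq_cons.mp hmap).1
    have hq1 := (h.prime (n := m - 1 + j) (by omega)).one_lt
    have hqi := (h.prime (n := i) (by omega)).one_lt
    have hgoal : ∀ (V : Finset ℕ) (f : ℕ × ℕ), V ⊆ (range (m - 1)).image q → #V ≤ j + 1 → U ⊆ V →
        f ∈ nextForms V (x :: t) → val (q (m - 1) - 1) f = q (m - 1 + (j + 1)) - 1 →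
        ∃ U : Finset ℕ, U ⊆ (range (m - 1)).image q ∧ #U ≤ j + 1 ∧ ∃ l ∈ Ch U (j + 1),
          l.map (val (q (m - 1) - 1)) = (List.range (j + 1 + 1)).reverse.map fun i => q (m - 1 + i) - 1 := by
      intro V f hV hVc hUV hf hv
      refine ⟨V, hV, hVc, f :: x :: t, ?_, ?_⟩
      · rw [Ch, mem_biUnion]
        exact ⟨x :: t, Ch_mono hUV j hl, mem_image.mpr ⟨f, hf, rfl⟩⟩
      · rw [List.range_succ, List.reverse_append, List.reverse_singleton, List.singleton_append, List.map_cons,
          hmap, hv]
        rfl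
    rcases Nat.lt_or_ge i (m - 1) with h1 | h1
    · refine hgoal (insert (q i) U) (x.1, x.2 + (q i - 1)) ?_ ?_ (subset_insert _ _) ?_ ?_
      · exact insert_subset (mem_image_of_mem _ (mem_range.mpr h1)) hU
      · exact (card_insert_le _ _).trans (by omega)
      · rw [nextForms, mem_union, mem_image]
        exact Or.inl ⟨q i, mem_insert_self _ _, rfl⟩
      · rw [show m - 1 + (j + 1) = m - 1 + j + 1 by ring, he]
        unfold val at hx ⊢
        simp only
        omega
    · obtain ⟨b, hb⟩ : ∃ b, i = m - 1 + b := ⟨i - (m - 1), by omega⟩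
      have hmem : q i - 1 ∈ (x :: t).map (val (q (m - 1) - 1)) := by
        rw [hmap, List.mem_map]
        exact ⟨b, by rw [List.mem_reverse, List.mem_range]; omega, by rw [hb]⟩
      obtain ⟨g, hg, hgv⟩ := List.mem_map.mp hmem
      refine hgoal U (x.1 + g.1, x.2 + g.2) hU (by omega) subset_rfl ?_ ?_
      · rw [nextForms, mem_union, mem_image, mem_image]
        exact Or.inr ⟨g, List.mem_toFinset.mpr hg, rfl⟩
      · rw [show m - 1 + (j + 1) = m - 1 + j + 1 by ring, he]
        unfold val at hx hgv ⊢
        simp only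
        have : (x.1 + g.1) * (q (m - 1) - 1) = x.1 * (q (m - 1) - 1) + g.1 * (q (m - 1) - 1) := by ring
        omega

/-- along a run, (term minus one) at most doubles at each step -/
theorem IsRun.doubling {m L : ℕ} {q : ℕ → ℕ} (h : IsRun m L q) {i : ℕ} (hi : i ≤ L) :
    q (m - 1 + i) - 1 ≤ 2 ^ i * (q (m - 1) - 1) := by
  induction i with
  | zero => simp
  | succ i ih =>
    obtain ⟨l, hl, he⟩ := h.step (n := m - 1 + i) (by omega) (by omega)
    have hm := h.1
    have h1 := h.le hl (by omega)
    have h2 := ih (by omega)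
    have h3 := (h.prime (n := m - 1 + i) (by omega)).one_lt
    have hpow : 2 ^ (i + 1) * (q (m - 1) - 1) = 2 * (2 ^ i * (q (m - 1) - 1)) := by ring
    rw [show m - 1 + (i + 1) = m - 1 + i + 1 by ring, hpow]
    omega

end Pool.Agent.H550U
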