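import Pool.Agent.H550U.Chain

/-!
# A union bound over the initial sets
-/

namespace Pool.Agent.H550U

open Finset

lemma choose_pred (N m : ℕ) (hm : 1 ≤ m) (hN : m ≤ N) :
    ((N - 1).choose (m - 1) : ℝ) = (m / N : ℝ) * (N.choose m : ℝ) := by
  obtain ⟨N, rfl⟩ : ∃ N', N = N' + 1 := ⟨N - 1, by omega⟩
  obtain ⟨m, rfl⟩ : ∃ m', m = m' + 1 := ⟨m - 1, by omega⟩
  have h := Nat.add_one_mul_choose_eq N m
  have h' : ((N : ℝ) + 1) * (N.choose m : ℝ) = ((N + 1).choose (m + 1) : ℝ) * (m + 1) := by exact_mod_cast h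
  rw [Nat.add_sub_cancel, Nat.add_sub_cancel]
  have : (0 : ℝ) < N + 1 := by positivity
  push_cast
  field_simp
  linarith

/-- choosing a set with `v` prescribed elements -/
lemma choose_ratio (v : ℕ) : ∀ (N m : ℕ), v ≤ m → m ≤ N → 1 ≤ N →
    ((N - v).choose (m - v) : ℝ) ≤ (m / N : ℝ) ^ v * (N.choose m : ℝ) := by
  induction v with
  | zero => intro N m _ _ _; simp
  | succ v ih =>
    intro N m hv hN hN1
    have h1 := ih N m (by omega) hN hN1
    have h2 := choose_pred (N - v) (m - v) (by omega) (by omega)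
    rw [show N - v - 1 = N - (v + 1) by omega, show m - v - 1 = m - (v + 1) by omega] at h2
    rw [h2]
    have hN0 : (0 : ℝ) < N := by exact_mod_cast hN1
    have hNv : (0 : ℝ) < ((N - v : ℕ) : ℝ) := by exact_mod_cast (by omega : 0 < N - v)
    have h3 : ((m - v : ℕ) : ℝ) / ((N - v : ℕ) : ℝ) ≤ (m : ℝ) / N := by
      rw [div_le_div_iff₀ hNv hN0]
      have : (m - v) * N ≤ m * (N - v) := by
        obtain ⟨a, rfl⟩ : ∃ a, m = v + a := ⟨m - v, by omega⟩
        obtain ⟨b, rfl⟩ : ∃ b, N = v + a + b := ⟨N - (v + a), by omega⟩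
        rw [show v + a - v = a by omega, show v + a + b - v = a + b by omega]
        nlinarith [Nat.zero_le (v * b)]
      exact_mod_cast this
    calc ((m - v : ℕ) : ℝ) / ((N - v : ℕ) : ℝ) * ((N - v).choose (m - v) : ℝ)
        ≤ (m : ℝ) / N * ((m / N : ℝ) ^ v * (N.choose m : ℝ)) := by gcongr
      _ = _ := by ring

/-- choosing a set that avoids `a` given elements -/
lemma choose_avoid (a : ℕ) : ∀ (k n : ℕ), a ≤ n → 1 ≤ n →
    ((n - a).choose k : ℝ) ≤ (((n - a : ℕ) : ℝ) / n) ^ k * (n.choose k : ℝ) := by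
  intro k
  induction k with
  | zero => intro n _ _; simp
  | succ k ih =>
    intro n ha hn
    rcases Nat.eq_or_lt_of_le ha with rfl | ha'
    · rw [Nat.sub_self, Nat.choose_zero_succ, Nat.cast_zero]
      positivity
    · obtain ⟨n, rfl⟩ : ∃ n', n = n' + 1 := ⟨n - 1, by omega⟩
      obtain ⟨d, hd⟩ : ∃ d, n + 1 - a = d + 1 := ⟨n - a, by omega⟩
      have e1 : ((d : ℝ) + 1) * (d.choose k : ℝ) = ((d + 1).choose (k + 1) : ℝ) * (k + 1) := by
        exact_mod_cast Nat.add_one_mul_choose_eq d k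
      have e2 : ((n : ℝ) + 1) * (n.choose k : ℝ) = ((n + 1).choose (k + 1) : ℝ) * (k + 1) := by
        exact_mod_cast Nat.add_one_mul_choose_eq n k
      have hdn : n - a = d := by omega
      rw [hd]
      have hk : (0 : ℝ) < k + 1 := by positivity
      have hn0 : (0 : ℝ) < n + 1 := by positivity
      have e3 : ((d + 1).choose (k + 1) : ℝ) = (d + 1) * (d.choose k : ℝ) / (k + 1) := by
        field_simp; linarith
      have e4 : ((n + 1).choose (k + 1) : ℝ) = (n + 1) * (n.choose k : ℝ) / (k + 1) := by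
        field_simp; linarith
      rw [e3, e4]
      push_cast
      have h5 : (d.choose k : ℝ) ≤ (((d : ℝ) + 1) / (n + 1)) ^ k * (n.choose k : ℝ) := by
        rcases Nat.eq_zero_or_pos n with h0 | hpos
        · have : d = 0 := by omega
          rw [this, h0]
          simp
        · have h6 := ih n (by omega) hpos
          rw [hdn] at h6
          refine h6.trans ?_
          have hnr : (0 : ℝ) < n := by exact_mod_cast hpos
          have hdn' : (d : ℝ) ≤ n := by exact_mod_cast (by omega : d ≤ n)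
          have h7 : (d : ℝ) / n ≤ (d + 1) / (n + 1) := by
            rw [div_le_div_iff₀ hnr hn0]
            nlinarith
          gcongr
      calc ((d : ℝ) + 1) * (d.choose k : ℝ) / (k + 1)
          ≤ (d + 1) * ((((d : ℝ) + 1) / (n + 1)) ^ k * (n.choose k : ℝ)) / (k + 1) := by gcongr
        _ = (((d : ℝ) + 1) / (n + 1)) ^ (k + 1) * ((n + 1) * (n.choose k : ℝ) / (k + 1)) := by
            rw [pow_succ]
            field_simp

lemma choose_avoid_exp (a k n : ℕ) (ha : a ≤ n) (hn : 1 ≤ n) :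
    ((n - a).choose k : ℝ) ≤ Real.exp (-(a * k / n : ℝ)) * (n.choose k : ℝ) := by
  refine (choose_avoid a k n ha hn).trans ?_
  have hn0 : (0 : ℝ) < n := by exact_mod_cast hn
  have h1 : ((n - a : ℕ) : ℝ) / n ≤ Real.exp (-(a / n : ℝ)) := by
    have := Real.add_one_le_exp (-(a / n : ℝ))
    rw [Nat.cast_sub ha]
    have e : ((n : ℝ) - a) / n = -(a / n : ℝ) + 1 := by field_simp; ring
    rw [e]; exact this
  have h2 : (((n - a : ℕ) : ℝ) / n) ^ k ≤ Real.exp (-(a * k / n : ℝ)) := by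
    calc (((n - a : ℕ) : ℝ) / n) ^ k ≤ Real.exp (-(a / n : ℝ)) ^ k := by gcongr
      _ = Real.exp (-(a * k / n : ℝ)) := by
          rw [← Real.exp_nat_mul]
          congr 1
          ring
  gcongr

/-- the number of the `m`-element subsets of `P` that contain `A` and avoid `V` -/
lemma card_contain (P A V : Finset ℕ) (m : ℕ) (hA : A ⊆ P) (hV : V ⊆ P) :
    #((powersetCard m P).filter fun S => A ⊆ S ∧ Disjoint S V) ≤ (#P - #A - #V).choose (m - #A) := by
  classical
  by_cases hAV : Disjoint A V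
  · have h1 : #((powersetCard m P).filter fun S => A ⊆ S ∧ Disjoint S V) ≤
        #(powersetCard (m - #A) (P \ (A ∪ V))) := by
      refine card_le_card_of_injOn (fun S => S \ A) ?_ ?_
      · intro S hS
        rw [mem_coe, mem_filter, mem_powersetCard] at hS
        obtain ⟨⟨h1, h2⟩, h3, h4⟩ := hS
        rw [mem_coe, mem_powersetCard]
        refine ⟨?_, ?_⟩
        · intro x hx
          rw [mem_sdiff] at hx ⊢
          refine ⟨h1 hx.1, ?_⟩
          rw [mem_union]
          rintro (h | h)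
          · exact hx.2 h
          · exact (disjoint_left.mp h4 hx.1) h
        · rw [card_sdiff_of_subset h3, h2]
      · intro S hS S' hS' he
        rw [mem_coe, mem_filter] at hS hS'
        have e1 : S \ A ∪ A = S := sdiff_union_of_subset hS.2.1
        have e2 : S' \ A ∪ A = S' := sdiff_union_of_subset hS'.2.1
        rw [← e1, ← e2]
        exact congrArg (· ∪ A) he
    rw [card_powersetCard, card_sdiff_of_subset (union_subset hA hV), card_union_of_disjoint hAV] at h1
    rwa [← Nat.sub_sub] at h1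
  · rw [filter_false_of_mem, card_empty]
    · exact Nat.zero_le _
    · rintro S - ⟨h1, h2⟩
      exact hAV (disjoint_of_subset_left h1 h2)

/-- The union bound. -/
theorem master (P : Finset ℕ) (m j : ℕ) (hm : 1 ≤ m) (hmP : m ≤ #P) (Bad : Finset (Finset ℕ))
    (R : ℕ → List (ℕ × ℕ) → Finset ℕ → Prop) [∀ p l, DecidablePred (R p l)] (D : ℝ) (hD : 0 ≤ D)
    (hBad : ∀ S ∈ Bad, S ∈ powersetCard m P ∧ ∃ p ∈ S, ∃ U, U ⊆ S ∧ p ∉ U ∧ #U ≤ j ∧ ∃ l ∈ Ch U j, R p l S)
    (hcount : ∀ v, v ≤ j → v + 1 ≤ m → ∀ U ∈ powersetCard v P, ∀ l ∈ Ch U j,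
      ∑ p ∈ P.filter (fun p => p ∉ U), (#((powersetCard m P).filter fun S => insert p U ⊆ S ∧ R p l S) : ℝ) ≤
        D * ((#P - (v + 1)).choose (m - (v + 1)) : ℝ)) :
    (#Bad : ℝ) ≤ (j + 1) * (2 * j) ^ j * D * (m : ℝ) ^ (j + 1) / #P * ((#P).choose m : ℝ) := by
  classical
  obtain ⟨N, hN⟩ : ∃ N, N = #P := ⟨_, rfl⟩
  have hN1 : 1 ≤ N := by omega
  have hN0 : (0 : ℝ) < N := by exact_mod_cast hN1
  set G : Finset ℕ → List (ℕ × ℕ) → ℕ → Finset (Finset ℕ) := fun U l p =>
    (powersetCard m P).filter fun S => insert p U ⊆ S ∧ R p l S with hG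
  have hsub : Bad ⊆ (range (j + 1)).biUnion fun v => (powersetCard v P).biUnion fun U => (Ch U j).biUnion fun l =>
      (P.filter (fun p => p ∉ U)).biUnion fun p => G U l p := by
    intro S hS
    obtain ⟨h1, p, hp, U, hU, hpU, hUj, l, hl, hR⟩ := hBad S hS
    have hSP := (mem_powersetCard.mp h1).1
    simp only [mem_biUnion]
    refine ⟨#U, mem_range.mpr (by omega), U, mem_powersetCard.mpr ⟨hU.trans hSP, rfl⟩, l, hl, p,
      mem_filter.mpr ⟨hSP hp, hpU⟩, ?_⟩
    rw [hG, mem_filter]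
    exact ⟨h1, insert_subset hp hU, hR⟩
  have h1 : (#Bad : ℝ) ≤ ∑ v ∈ range (j + 1), ∑ U ∈ powersetCard v P, ∑ l ∈ Ch U j,
      ∑ p ∈ P.filter (fun p => p ∉ U), (#(G U l p) : ℝ) := by
    have h2 : #Bad ≤ ∑ v ∈ range (j + 1), ∑ U ∈ powersetCard v P, ∑ l ∈ Ch U j,
        ∑ p ∈ P.filter (fun p => p ∉ U), #(G U l p) := by
      refine (card_le_card hsub).trans (card_biUnion_le.trans (sum_le_sum fun v _ => ?_))
      refine card_biUnion_le.trans (sum_le_sum fun U _ => ?_)
      refine card_biUnion_le.trans (sum_le_sum fun l _ => ?_)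
      exact card_biUnion_le
    exact_mod_cast h2
  have hterm : ∀ v ∈ range (j + 1), ∑ U ∈ powersetCard v P, ∑ l ∈ Ch U j,
      ∑ p ∈ P.filter (fun p => p ∉ U), (#(G U l p) : ℝ) ≤ (2 * j) ^ j * D * (m : ℝ) ^ (j + 1) / N * (N.choose m : ℝ) := by
    intro v hv
    have hvj : v ≤ j := by have := mem_range.mp hv; omega
    by_cases hvm : v + 1 ≤ m
    · have h2 : ∀ U ∈ powersetCard v P, ∑ l ∈ Ch U j, ∑ p ∈ P.filter (fun p => p ∉ U), (#(G U l p) : ℝ) ≤
          (2 * j) ^ j * (D * ((N - (v + 1)).choose (m - (v + 1)) : ℝ)) := by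
        intro U hU
        have h3 : (#(Ch U j) : ℝ) ≤ (2 * j) ^ j := by
          have h4 := Ch_card U j
          rw [(mem_powersetCard.mp hU).2] at h4
          have h5 : (v + j) ^ j ≤ (2 * j) ^ j := Nat.pow_le_pow_left (by omega) _
          exact_mod_cast h4.trans h5
        calc _ ≤ ∑ l ∈ Ch U j, D * ((N - (v + 1)).choose (m - (v + 1)) : ℝ) := by
              refine sum_le_sum fun l hl => ?_
              rw [hN]
              exact hcount v hvj hvm U hU l hl
          _ = #(Ch U j) * (D * ((N - (v + 1)).choose (m - (v + 1)) : ℝ)) := by rw [sum_const, nsmul_eq_mul]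
          _ ≤ _ := by gcongr
      have h6 : ((N - (v + 1)).choose (m - (v + 1)) : ℝ) ≤ (m / N : ℝ) ^ (v + 1) * (N.choose m : ℝ) :=
        choose_ratio (v + 1) N m hvm (by omega) hN1
      have h7 : (N.choose v : ℝ) ≤ (N : ℝ) ^ v := by exact_mod_cast Nat.choose_le_pow N v
      have hm1 : (1 : ℝ) ≤ m := by exact_mod_cast hm
      calc _ ≤ ∑ U ∈ powersetCard v P, (2 * j) ^ j * (D * ((N - (v + 1)).choose (m - (v + 1)) : ℝ)) := sum_le_sum h2
        _ = N.choose v * ((2 * j) ^ j * (D * ((N - (v + 1)).choose (m - (v + 1)) : ℝ))) := by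
            rw [sum_const, nsmul_eq_mul, card_powersetCard, hN]
        _ ≤ (N : ℝ) ^ v * ((2 * j) ^ j * (D * ((m / N : ℝ) ^ (v + 1) * (N.choose m : ℝ)))) := by gcongr
        _ = (2 * j) ^ j * D * (m : ℝ) ^ (v + 1) / N * (N.choose m : ℝ) := by
            rw [div_pow, pow_succ (N : ℝ)]
            field_simp
        _ ≤ (2 * j) ^ j * D * (m : ℝ) ^ (j + 1) / N * (N.choose m : ℝ) := by
            have : (m : ℝ) ^ (v + 1) ≤ (m : ℝ) ^ (j + 1) := pow_le_pow_right₀ hm1 (by omega)
            gcongr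
    · have h2 : ∀ U ∈ powersetCard v P, ∀ l ∈ Ch U j, ∀ p ∈ P.filter (fun p => p ∉ U), (#(G U l p) : ℝ) = 0 := by
        intro U hU l _ p hp
        rw [Nat.cast_eq_zero, card_eq_zero, hG]
        refine filter_false_of_mem fun S hS => ?_
        rintro ⟨h3, -⟩
        have h4 := card_le_card h3
        rw [card_insert_of_notMem (mem_filter.mp hp).2, (mem_powersetCard.mp hU).2, (mem_powersetCard.mp hS).2] at h4
        omega
      rw [sum_eq_zero fun U hU => sum_eq_zero fun l hl => sum_eq_zero fun p hp => h2 U hU l hl p hp]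
      positivity
  calc (#Bad : ℝ) ≤ ∑ v ∈ range (j + 1), (2 * j) ^ j * D * (m : ℝ) ^ (j + 1) / N * (N.choose m : ℝ) :=
        h1.trans (sum_le_sum hterm)
    _ = _ := by
        rw [sum_const, card_range, nsmul_eq_mul, ← hN]
        push_cast
        ring

end Pool.Agent.H550U
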