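import Pool.Agent.H550U.Count

/-!
# The two events in the proof that most initial sets survive
-/

namespace Pool.Agent.H550U

open Finset

lemma card_contain' (P U V : Finset ℕ) (m p : ℕ) (hU : U ⊆ P) (hp : p ∈ P) (hpU : p ∉ U) (hV : V ⊆ P) :
    #((powersetCard m P).filter fun S => insert p U ⊆ S ∧ Disjoint S V) ≤
      (#P - (#U + 1) - #V).choose (m - (#U + 1)) := by
  have h := card_contain P (insert p U) V m (insert_subset hp hU) hV
  rwa [card_insert_of_notMem hpU] at h

/-- the data that a run gives to the union bound -/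
lemma run_data {m j : ℕ} {q : ℕ → ℕ} (h : IsRun m j q) {S : Finset ℕ} (hS : S = (range m).image q) :
    ∃ p ∈ S, p = q (m - 1) ∧ ∃ U, U ⊆ S ∧ p ∉ U ∧ #U ≤ j ∧ ∃ l ∈ Ch U j,
      l.map (val (p - 1)) = (List.range (j + 1)).reverse.map (fun i => q (m - 1 + i) - 1) ∧
      val (p - 1) (l.headD (0, 0)) = q (m - 1 + j) - 1 := by
  obtain ⟨U, hU, hUc, l, hl, hmap⟩ := run_chain h
  have hm := h.1
  refine ⟨q (m - 1), ?_, rfl, U, ?_, ?_, hUc, l, hl, hmap, ?_⟩
  · rw [hS]; exact mem_image_of_mem _ (mem_range.mpr (by omega))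
  · rw [hS]; exact hU.trans (image_subset_image (range_subset_range.mpr (by omega)))
  · intro hmem
    obtain ⟨i, hi, he⟩ := mem_image.mp (hU hmem)
    have := h.lt (i := i) (j := m - 1) (mem_range.mp hi) (by omega)
    omega
  · have hlen := Ch_length hl
    obtain ⟨x, t, rfl⟩ : ∃ x t, l = x :: t := by
      cases l with
      | nil => simp at hlen
      | cons x t => exact ⟨x, t, rfl⟩
    rw [List.range_succ, List.reverse_append, List.reverse_singleton, List.singleton_append, List.map_cons,
      List.map_cons] at hmap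
    exact (List.cons_eq_cons.mp hmap).1

/-- Few initial sets lead, in `j` steps, to a term `y` with `y - 1` in a given small set. -/
lemma event_one (P : Finset ℕ) (hP : ∀ p ∈ P, p.Prime) (m j : ℕ) (hm : 1 ≤ m) (hmP : m ≤ #P) (E : Finset ℕ)
    (Bad : Finset (Finset ℕ))
    (hBad : ∀ S ∈ Bad, S ∈ powersetCard m P ∧ ∃ q, IsRun m j q ∧ S = (range m).image q ∧ q (m - 1 + j) - 1 ∈ E) :
    (#Bad : ℝ) ≤ (j + 1) * (2 * j) ^ j * #E * (m : ℝ) ^ (j + 1) / #P * ((#P).choose m : ℝ) := by
  classical
  refine master P m j hm hmP Bad (fun p l _ => val (p - 1) (l.headD (0, 0)) ∈ E) #E (by positivity) ?_ ?_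
  · intro S hS
    obtain ⟨h1, q, hq, hSq, hE⟩ := hBad S hS
    obtain ⟨p, hp, -, U, hU, hpU, hUj, l, hl, -, hv⟩ := run_data hq hSq
    exact ⟨h1, p, hp, U, hU, hpU, hUj, l, hl, by rw [hv]; exact hE⟩
  · intro v _ _ U hU l hl
    obtain ⟨hUP, hUv⟩ := mem_powersetCard.mp hU
    have hlen := Ch_length hl
    obtain ⟨f, t, rfl⟩ : ∃ x t, l = x :: t := by
      cases l with
      | nil => simp at hlen
      | cons x t => exact ⟨x, t, rfl⟩
    have hf := (Ch_coeff hl f (List.mem_cons_self)).1
    simp only [List.headD_cons]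
    have h1 : ∀ p ∈ P.filter (fun p => p ∉ U),
        (#((powersetCard m P).filter fun S => insert p U ⊆ S ∧ val (p - 1) f ∈ E) : ℝ) ≤
          if val (p - 1) f ∈ E then ((#P - (v + 1)).choose (m - (v + 1)) : ℝ) else 0 := by
      intro p hp
      obtain ⟨hpP, hpU⟩ := mem_filter.mp hp
      split_ifs with hE
      · have h2 := card_contain' P U ∅ m p hUP hpP hpU (empty_subset _)
        rw [hUv, card_empty, Nat.sub_zero] at h2
        have h3 : ((powersetCard m P).filter fun S => insert p U ⊆ S ∧ val (p - 1) f ∈ E) =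
            ((powersetCard m P).filter fun S => insert p U ⊆ S ∧ Disjoint S ∅) := by
          refine filter_congr fun S _ => ?_
          simp [hE]
        rw [h3]
        exact_mod_cast h2
      · rw [filter_false_of_mem fun S _ h => hE h.2, card_empty, Nat.cast_zero]
    refine (sum_le_sum h1).trans ?_
    rw [← sum_filter, sum_const, nsmul_eq_mul]
    have h4 : #(filter (fun p => val (p - 1) f ∈ E) (P.filter (fun p => p ∉ U))) ≤ #E := by
      refine card_le_card_of_injOn (fun p => val (p - 1) f) ?_ ?_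
      · intro p hp
        exact (mem_filter.mp (mem_coe.mp hp)).2
      · intro p hp p' hp' he
        have a1 := (hP p (mem_filter.mp (mem_filter.mp (mem_coe.mp hp)).1).1).one_lt
        have a2 := (hP p' (mem_filter.mp (mem_filter.mp (mem_coe.mp hp')).1).1).one_lt
        simp only [val] at he
        have : f.1 * (p - 1) = f.1 * (p' - 1) := by omega
        have := Nat.eq_of_mul_eq_mul_left (by omega) this
        omega
    have h5 : (#(filter (fun p => val (p - 1) f ∈ E) (P.filter (fun p => p ∉ U))) : ℝ) ≤ #E := by exact_mod_cast h4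
    gcongr

/-- Few initial sets lead, in `j` steps, to a term `y` such that the initial set avoids a large set which depends only
on `y`. -/
lemma event_two (P : Finset ℕ) (m j : ℕ) (hm : 1 ≤ m) (hmP : m ≤ #P) (hjP : j + 2 ≤ #P)
    (V : ℕ → Finset ℕ) (hV : ∀ h, V h ⊆ P) (a : ℕ)
    (Bad : Finset (Finset ℕ))
    (hBad : ∀ S ∈ Bad, S ∈ powersetCard m P ∧ ∃ q, IsRun m j q ∧ S = (range m).image q ∧
      a ≤ #(V (q (m - 1 + j) - 1)) ∧ Disjoint S (V (q (m - 1 + j) - 1))) :
    (#Bad : ℝ) ≤ (j + 1) * (2 * j) ^ j * (#P * Real.exp (-(a * (m - (j + 1)) / #P : ℝ))) * (m : ℝ) ^ (j + 1) / #P *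
      ((#P).choose m : ℝ) := by
  classical
  refine master P m j hm hmP Bad (fun p l S => a ≤ #(V (val (p - 1) (l.headD (0, 0)))) ∧
    Disjoint S (V (val (p - 1) (l.headD (0, 0))))) _ (by positivity) ?_ ?_
  · intro S hS
    obtain ⟨h1, q, hq, hSq, h2, h3⟩ := hBad S hS
    obtain ⟨p, hp, -, U, hU, hpU, hUj, l, hl, -, hv⟩ := run_data hq hSq
    exact ⟨h1, p, hp, U, hU, hpU, hUj, l, hl, by rw [hv]; exact ⟨h2, h3⟩⟩
  · intro v hv hvm U hU l hl
    obtain ⟨hUP, hUv⟩ := mem_powersetCard.mp hU
    obtain ⟨n, hn⟩ : ∃ n, n = #P - (v + 1) := ⟨_, rfl⟩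
    obtain ⟨k, hk⟩ : ∃ k, k = m - (v + 1) := ⟨_, rfl⟩
    have hn1 : 1 ≤ n := by omega
    have hn0 : (0 : ℝ) < n := by exact_mod_cast hn1
    have hP0 : (0 : ℝ) < #P := by
      have : 0 < #P := by omega
      exact_mod_cast this
    have key : ∀ p ∈ P.filter (fun p => p ∉ U),
        (#((powersetCard m P).filter fun S => insert p U ⊆ S ∧ (a ≤ #(V (val (p - 1) (l.headD (0, 0)))) ∧
          Disjoint S (V (val (p - 1) (l.headD (0, 0)))))) : ℝ) ≤
          Real.exp (-(a * (m - (j + 1)) / #P : ℝ)) * (n.choose k : ℝ) := by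
      intro p hp
      obtain ⟨hpP, hpU⟩ := mem_filter.mp hp
      obtain ⟨W, hW⟩ : ∃ W, W = V (val (p - 1) (l.headD (0, 0))) := ⟨_, rfl⟩
      rw [← hW]
      have hWP : W ⊆ P := by rw [hW]; exact hV _
      by_cases ha : a ≤ #W
      · have h2 := card_contain' P U W m p hUP hpP hpU hWP
        rw [hUv, ← hn, ← hk] at h2
        have h3 : ((powersetCard m P).filter fun S => insert p U ⊆ S ∧ (a ≤ #W ∧ Disjoint S W)) =
            ((powersetCard m P).filter fun S => insert p U ⊆ S ∧ Disjoint S W) := by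
          refine filter_congr fun S _ => ?_
          simp [ha]
        rw [h3]
        have h4 : ((n - #W).choose k : ℝ) ≤ Real.exp (-(a * k / n : ℝ)) * (n.choose k : ℝ) := by
          rcases Nat.lt_or_ge n a with h5 | h5
          · rw [show n - #W = 0 by omega]
            rcases Nat.eq_zero_or_pos k with h0 | h0
            · rw [h0]; simp
            · obtain ⟨k', rfl⟩ : ∃ k', k = k' + 1 := ⟨k - 1, by omega⟩
              rw [Nat.choose_zero_succ, Nat.cast_zero]
              positivity
          · refine le_trans ?_ (choose_avoid_exp a k n h5 hn1)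
            exact_mod_cast Nat.choose_le_choose k (Nat.sub_le_sub_left ha n)
        have h5 : (#((powersetCard m P).filter fun S => insert p U ⊆ S ∧ Disjoint S W) : ℝ) ≤
            ((n - #W).choose k : ℝ) := by exact_mod_cast h2
        refine h5.trans (h4.trans ?_)
        have h6 : (a * (m - (j + 1)) / #P : ℝ) ≤ (a * k / n : ℝ) := by
          have h7 : (k : ℝ) = m - (v + 1) := by
            rw [hk, Nat.cast_sub hvm]; push_cast; ring
          have h8 : (v : ℝ) ≤ j := by exact_mod_cast hv
          have h9 : (m : ℝ) - (j + 1) ≤ k := by rw [h7]; linarith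
          have h10 : (n : ℝ) ≤ #P := by
            have : n ≤ #P := by omega
            exact_mod_cast this
          calc (a * (m - (j + 1)) / #P : ℝ) ≤ a * k / #P := by gcongr
            _ ≤ a * k / n := by gcongr
        gcongr
      · rw [filter_false_of_mem fun S _ h => ha h.2.1, card_empty, Nat.cast_zero]
        positivity
    calc _ ≤ ∑ p ∈ P.filter (fun p => p ∉ U), Real.exp (-(a * (m - (j + 1)) / #P : ℝ)) * (n.choose k : ℝ) :=
          sum_le_sum key
      _ = #(P.filter (fun p => p ∉ U)) * (Real.exp (-(a * (m - (j + 1)) / #P : ℝ)) * (n.choose k : ℝ)) := by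
          rw [sum_const, nsmul_eq_mul]
      _ ≤ #P * (Real.exp (-(a * (m - (j + 1)) / #P : ℝ)) * (n.choose k : ℝ)) := by
          have : (#(P.filter (fun p => p ∉ U)) : ℝ) ≤ #P := by exact_mod_cast card_filter_le _ _
          gcongr
      _ = _ := by rw [hn, hk]; ring

end Pool.Agent.H550U
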