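import Mathlib

/-!
# Chebyshev bounds for the number of primes
-/

namespace Pool.Agent.H550U

open Finset Filter

/-- Chebyshev bounds -/
lemma pi_bounds : ∃ x₀ : ℕ, ∀ x : ℕ, x₀ ≤ x →
    (x : ℝ) / (2 * Real.log x) ≤ #(Nat.primesLE x) ∧ (#(Nat.primesLE x) : ℝ) ≤ 2 * x / Real.log x := by
  have h1 := Chebyshev.eventually_primeCounting_le (ε := 1 / 2) (by norm_num)
  obtain ⟨X, hX⟩ := eventually_atTop.1 h1
  refine ⟨max ⌈X⌉₊ 1000, fun x hx => ?_⟩
  have hx1 : X ≤ x := Nat.ceil_le.mp ((le_max_left _ _).trans hx)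
  have hx2 : 1000 ≤ x := (le_max_right _ _).trans hx
  have hxr : (1000 : ℝ) ≤ x := by exact_mod_cast hx2
  have hlog : 0 < Real.log x := Real.log_pos (by linarith)
  have hcard : #(Nat.primesLE x) = Nat.primeCounting x := Nat.primesLE_card_eq_primeCounting x
  rw [hcard]
  constructor
  · refine le_trans ?_ (Chebyshev.pi_ge x)
    rw [div_le_div_iff₀ (by positivity) hlog]
    have h3 : Real.log (x + 1) ≤ x * (Real.log 2 - 1 / 2) := by
      have h4 : Real.log (x + 1) = 2 * Real.log (Real.sqrt (x + 1)) := by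
        rw [Real.log_sqrt (by positivity)]; ring
      have h5 : Real.log (Real.sqrt (x + 1)) ≤ Real.sqrt (x + 1) - 1 := Real.log_le_sub_one_of_pos (by positivity)
      have h6 := Real.log_two_gt_d9
      have h7 : Real.sqrt (x + 1) ≤ x * (19 / 200) := by
        rw [Real.sqrt_le_left (by positivity)]
        nlinarith
      nlinarith
    nlinarith
  · have h2 := hX x hx1
    rw [Nat.floor_natCast] at h2
    refine h2.trans ?_
    have h4 : Real.log 4 ≤ 3 / 2 := by
      have : Real.log 4 = 2 * Real.log 2 := by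
        rw [show (4 : ℝ) = 2 ^ 2 by norm_num, Real.log_pow]; norm_num
      have := Real.log_two_lt_d9
      linarith
    gcongr
    linarith

end Pool.Agent.H550U
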