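import Pool.Agent.H550U.RareA
import Pool.Agent.H550U.PiBounds

/-!
# Small initial sets rarely survive `L` steps
-/

namespace Pool.Agent.H550U

open Finset Filter

theorem rare (L : ℕ) : ∃ C : ℝ, 0 < C ∧ ∃ x₀ : ℕ, ∀ x : ℕ, x₀ ≤ x → ∀ m : ℕ, 1 ≤ m →
    (({S : Finset ℕ | S ∈ powersetCard m (Nat.primesLE x) ∧ Lasts S L}).ncard : ℝ) ≤
      C * Real.log (Real.log x) ^ C * m * (m / Real.log x) ^ L * ((Nat.primeCounting x).choose m : ℝ) := by
  classical
  obtain ⟨C₁, hC₁, x₁, hsv⟩ := chain_sieve L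
  obtain ⟨x₂, hπ⟩ := pi_bounds
  have hev : ∀ᶠ x : ℕ in atTop, 1 ≤ Real.log x ∧ 1 ≤ Real.log (Real.log x) := by
    have e1 : Tendsto (fun x : ℕ => Real.log (x : ℝ)) atTop atTop :=
      Real.tendsto_log_atTop.comp tendsto_natCast_atTop_atTop
    have e2 : Tendsto (fun x : ℕ => Real.log (Real.log (x : ℝ))) atTop atTop := Real.tendsto_log_atTop.comp e1
    filter_upwards [e1.eventually_ge_atTop 1, e2.eventually_ge_atTop 1] with x h1 h2
    exact ⟨h1, h2⟩
  obtain ⟨x₃, hx₃⟩ := eventually_atTop.1 hev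
  obtain ⟨K, hK⟩ : ∃ K : ℝ, K = (L + 1) * (2 * L) ^ L * 2 * C₁ := ⟨_, rfl⟩
  have hK0 : 0 ≤ K := by rw [hK]; positivity
  refine ⟨K + C₁, by positivity, max (max x₁ x₂) (x₃ + 2), fun x hx m hm => ?_⟩
  have hx1 : x₁ ≤ x := (le_max_left _ _).trans ((le_max_left _ _).trans hx)
  have hx2 : x₂ ≤ x := (le_max_right _ _).trans ((le_max_left _ _).trans hx)
  have hx3 : x₃ + 2 ≤ x := (le_max_right _ _).trans hx
  obtain ⟨hl1, hll1⟩ := hx₃ x (by omega)
  obtain ⟨hπ1, -⟩ := hπ x hx2
  have hx0 : (0 : ℝ) < x := by exact_mod_cast (by omega : 0 < x)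
  obtain ⟨l, hl⟩ : ∃ l, l = Real.log x := ⟨_, rfl⟩
  rw [← hl] at hl1 hll1 hπ1 ⊢
  have hl0 : 0 < l := by linarith
  obtain ⟨P, hP⟩ : ∃ P, P = Nat.primesLE x := ⟨_, rfl⟩
  rw [← hP] at hπ1 ⊢
  have hPc : Nat.primeCounting x = #P := by rw [hP, Nat.primesLE_card_eq_primeCounting]
  rw [hPc]
  have hset : ({S : Finset ℕ | S ∈ powersetCard m P ∧ Lasts S L}) =
      (((powersetCard m P).filter fun S => Lasts S L : Finset (Finset ℕ)) : Set (Finset ℕ)) := by
    ext S; simp
  rw [hset, Set.ncard_coe_finset]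
  rcases Nat.lt_or_ge (#P) m with hmP | hmP
  · rw [powersetCard_eq_empty.mpr hmP, filter_empty, card_empty, Nat.cast_zero]
    have : 0 ≤ Real.log l ^ (K + C₁) := Real.rpow_nonneg (by linarith) _
    positivity
  have hP0 : (0 : ℝ) < #P := by exact_mod_cast (by omega : 0 < #P)
  obtain ⟨D, hD⟩ : ∃ D : ℝ, D = C₁ * Real.log l ^ C₁ * (x / l ^ (L + 1)) := ⟨_, rfl⟩
  have hll0 : 0 ≤ Real.log l ^ C₁ := Real.rpow_nonneg (by linarith) _
  have hD0 : 0 ≤ D := by rw [hD]; positivity
  have key := master P m L hm hmP ((powersetCard m P).filter fun S => Lasts S L)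
    (fun p l _ => (l.map (val (p - 1))).Nodup ∧ ∀ f ∈ l, (val (p - 1) f + 1).Prime) D hD0 (by
      intro S hS
      obtain ⟨hS1, q, hq, hSq⟩ := mem_filter.mp hS
      have hSm := (mem_powersetCard.mp hS1).2
      rw [hSm] at hq hSq
      obtain ⟨p, hp, hpq, U, hU, hpU, hUL, l', hl', hmap, -⟩ := run_data hq hSq
      refine ⟨hS1, p, hp, U, hU, hpU, hUL, l', hl', ?_, ?_⟩
      · rw [hmap]
        refine List.Nodup.map_on ?_ (List.nodup_reverse.mpr List.nodup_range)
        intro i hi j hj he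
        rw [List.mem_reverse, List.mem_range] at hi hj
        have h1 := (hq.prime (n := m - 1 + i) (by omega)).one_lt
        have h2 := (hq.prime (n := m - 1 + j) (by omega)).one_lt
        rcases Nat.lt_trichotomy i j with h | h | h
        · have := hq.lt (i := m - 1 + i) (j := m - 1 + j) (by omega) (by omega)
          omega
        · exact h
        · have := hq.lt (i := m - 1 + j) (j := m - 1 + i) (by omega) (by omega)
          omega
      · intro f hf
        have h1 : val (p - 1) f ∈ l'.map (val (p - 1)) := List.mem_map_of_mem hf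
        rw [hmap, List.mem_map] at h1
        obtain ⟨i, hi, he⟩ := h1
        rw [List.mem_reverse, List.mem_range] at hi
        have h2 := hq.prime (n := m - 1 + i) (by omega)
        rw [← he, Nat.sub_add_cancel h2.one_lt.le]
        exact h2) (by
      intro v _ _ U hU l' hl'
      obtain ⟨hUP, hUv⟩ := mem_powersetCard.mp hU
      have h1 : ∀ p ∈ P.filter (fun p => p ∉ U),
          (#((powersetCard m P).filter fun S => insert p U ⊆ S ∧ ((l'.map (val (p - 1))).Nodup ∧
            ∀ f ∈ l', (val (p - 1) f + 1).Prime)) : ℝ) ≤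
            if ((l'.map (val (p - 1))).Nodup ∧ ∀ f ∈ l', (val (p - 1) f + 1).Prime) then
              ((#P - (v + 1)).choose (m - (v + 1)) : ℝ) else 0 := by
        intro p hp
        obtain ⟨hpP, hpU⟩ := mem_filter.mp hp
        split_ifs with hE
        · have h2 := card_contain' P U ∅ m p hUP hpP hpU (empty_subset _)
          rw [hUv, card_empty, Nat.sub_zero] at h2
          have h3 : ((powersetCard m P).filter fun S => insert p U ⊆ S ∧ ((l'.map (val (p - 1))).Nodup ∧
              ∀ f ∈ l', (val (p - 1) f + 1).Prime)) =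
              ((powersetCard m P).filter fun S => insert p U ⊆ S ∧ Disjoint S ∅) := by
            refine filter_congr fun S _ => ?_
            constructor
            · rintro ⟨a, -⟩; exact ⟨a, disjoint_empty_right _⟩
            · rintro ⟨a, -⟩; exact ⟨a, hE⟩
          rw [h3]
          exact_mod_cast h2
        · rw [filter_false_of_mem fun S _ h => hE h.2, card_empty, Nat.cast_zero]
      refine (sum_le_sum h1).trans ?_
      rw [← sum_filter, sum_const, nsmul_eq_mul]
      have h4 : (#(filter (fun p => (l'.map (val (p - 1))).Nodup ∧ ∀ f ∈ l', (val (p - 1) f + 1).Prime)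
          (P.filter (fun p => p ∉ U))) : ℝ) ≤ D := by
        have h5 := hsv x hx1 U (fun u hu => by
          have := hUP hu
          rw [hP] at this
          exact (Nat.mem_primesLE.mp this).1) l' hl'
        rw [← hl, ← hD, ← hP] at h5
        refine le_trans ?_ h5
        have h6 : filter (fun p => (l'.map (val (p - 1))).Nodup ∧ ∀ f ∈ l', (val (p - 1) f + 1).Prime)
            (P.filter (fun p => p ∉ U)) ⊆ P.filter (fun p => (l'.map (val (p - 1))).Nodup ∧
              ∀ f ∈ l', (val (p - 1) f + 1).Prime) := filter_subset_filter _ (filter_subset _ _)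
        exact_mod_cast card_le_card h6
      gcongr)
  refine key.trans ?_
  obtain ⟨C, hC⟩ : ∃ C : ℝ, C = ((#P).choose m : ℝ) := ⟨_, rfl⟩
  have hC0 : 0 ≤ C := by rw [hC]; positivity
  rw [← hC]
  have hDP : D / #P ≤ C₁ * Real.log l ^ C₁ * (2 / l ^ L) := by
    rw [div_le_iff₀ hP0]
    calc D = C₁ * Real.log l ^ C₁ * (2 / l ^ L) * (x / (2 * l)) := by
          rw [hD, pow_succ]
          field_simp
      _ ≤ C₁ * Real.log l ^ C₁ * (2 / l ^ L) * #P := by gcongr
  calc ((L : ℝ) + 1) * (2 * L) ^ L * D * (m : ℝ) ^ (L + 1) / #P * C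
      = (L + 1) * (2 * L) ^ L * (m : ℝ) ^ (L + 1) * (D / #P) * C := by ring
    _ ≤ (L + 1) * (2 * L) ^ L * (m : ℝ) ^ (L + 1) * (C₁ * Real.log l ^ C₁ * (2 / l ^ L)) * C := by gcongr
    _ = K * Real.log l ^ C₁ * m * (m / l) ^ L * C := by
        rw [hK, pow_succ (m : ℝ), div_pow]
        ring
    _ ≤ (K + C₁) * Real.log l ^ (K + C₁) * m * (m / l) ^ L * C := by
        have h1 : Real.log l ^ C₁ ≤ Real.log l ^ (K + C₁) :=
          Real.rpow_le_rpow_of_exponent_le hll1 (by linarith)
        have h2 : K ≤ K + C₁ := by linarith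
        gcongr

end Pool.Agent.H550U
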