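import Pool.Agent.H550U.Events
import Pool.Agent.Y949.DK.SV

/-!
# Small initial sets rarely survive `L` steps: the sieve bound for one chain
-/

namespace Pool.Agent.H550U

open Finset Filter
open scoped Topology
open Pool.Agent.Y851.DK (sg P_SV)

/-- the sum of `1 / p` over the prime factors of an integer `n ≤ exp Z` is at most `log log Z + O(1)` -/
lemma sg_le : ∃ C : ℝ, 0 ≤ C ∧ ∀ Z : ℝ, 4 ≤ Z → ∀ n : ℕ, Real.log n ≤ Z → sg n ≤ Real.log (Real.log Z) + C := by
  obtain ⟨C, hC0, hC⟩ := Pool.Agent.Helper923.HMertens.mertens_ratio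
  have hl2 : 0 < Real.log 2 := Real.log_pos (by norm_num)
  refine ⟨1 / 2 + |Real.log (Real.log 2)| + C / Real.log 2 + 1 / Real.log 2, by positivity, fun Z hZ n hn => ?_⟩
  obtain ⟨b, hb⟩ : ∃ b, b = ⌊Z⌋₊ := ⟨_, rfl⟩
  have hb4 : 4 ≤ b := by rw [hb]; exact Nat.le_floor (by exact_mod_cast hZ)
  have hbZ : (b : ℝ) ≤ Z := by rw [hb]; exact Nat.floor_le (by linarith)
  have hbZ' : Z < b + 1 := by rw [hb]; exact Nat.lt_floor_add_one Z
  have hb0 : (4 : ℝ) ≤ b := by exact_mod_cast hb4
  have hlb : 0 < Real.log b := Real.log_pos (by linarith)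
  have hlZ : Real.log b ≤ Real.log Z := Real.log_le_log (by linarith) hbZ
  have h1 : ∑ p ∈ (Finset.Ioc 2 b).filter Nat.Prime, (1 : ℝ) / p ≤
      Real.log (Real.log Z) + |Real.log (Real.log 2)| + C / Real.log 2 := by
    have h2 := (abs_le.mp (hC 2 b le_rfl (by omega))).2
    rw [Nat.cast_ofNat, Real.log_div hlb.ne' hl2.ne'] at h2
    have h3 : Real.log (Real.log b) ≤ Real.log (Real.log Z) := Real.log_le_log hlb hlZ
    have h4 := neg_abs_le (Real.log (Real.log 2))
    linarith
  have h2 : sg n ≤ ∑ p ∈ (Finset.Ioc 2 b).filter Nat.Prime, (1 : ℝ) / p + 1 / 2 + #n.primeFactors * (1 / Z) := by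
    unfold sg
    rw [← sum_filter_add_sum_filter_not n.primeFactors (fun p => p ≤ b)]
    refine add_le_add ?_ ?_
    · have h3 : n.primeFactors.filter (fun p => p ≤ b) ⊆ insert 2 ((Finset.Ioc 2 b).filter Nat.Prime) := by
        intro p hp
        obtain ⟨hp1, hp2⟩ := mem_filter.mp hp
        have hpp := Nat.prime_of_mem_primeFactors hp1
        rw [mem_insert, mem_filter, mem_Ioc]
        have := hpp.two_le
        rcases Nat.eq_or_lt_of_le this with h | h
        · left; exact h.symm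
        · right; exact ⟨⟨h, hp2⟩, hpp⟩
      refine (sum_le_sum_of_subset_of_nonneg h3 fun p _ _ => by positivity).trans ?_
      rw [sum_insert (by simp)]
      push_cast
      linarith
    · have h3 : ∀ p ∈ n.primeFactors.filter (fun p => ¬ p ≤ b), (1 : ℝ) / p ≤ 1 / Z := by
        intro p hp
        obtain ⟨hp1, hp2⟩ := mem_filter.mp hp
        have : (b : ℝ) + 1 ≤ p := by exact_mod_cast (by omega : b + 1 ≤ p)
        exact one_div_le_one_div_of_le (by linarith) (by linarith)
      refine (sum_le_sum h3).trans ?_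
      rw [sum_const, nsmul_eq_mul]
      have : (#(n.primeFactors.filter fun p => ¬ p ≤ b) : ℝ) ≤ #n.primeFactors := by
        exact_mod_cast card_filter_le _ _
      have h4 : 0 ≤ 1 / Z := by positivity
      exact mul_le_mul_of_nonneg_right this h4
  have h3 : (#n.primeFactors : ℝ) * (1 / Z) ≤ 1 / Real.log 2 := by
    rcases Nat.eq_zero_or_pos n with rfl | hpos
    · rw [Nat.primeFactors_zero, card_empty, Nat.cast_zero, zero_mul]; positivity
    · have h4 : 2 ^ #n.primeFactors ≤ n := by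
        refine le_trans ?_ (Nat.le_of_dvd hpos (Nat.prod_primeFactors_dvd n))
        exact pow_card_le_prod n.primeFactors (fun p => p) 2 fun p hp => (Nat.prime_of_mem_primeFactors hp).two_le
      have h5 : (#n.primeFactors : ℝ) * Real.log 2 ≤ Real.log n := by
        rw [← Real.log_pow]
        exact Real.log_le_log (by positivity) (by exact_mod_cast h4)
      rw [mul_one_div, div_le_div_iff₀ (by linarith) hl2]
      linarith
  linarith

/-- two proportional forms are not simultaneously prime -/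
lemma not_proportional {c a c' a' r : ℕ} (hc : 1 ≤ c) (hc' : 1 ≤ c') (hr : 1 ≤ r) (h : c * (a' + 1) = c' * (a + 1))
    (hp : (c * r + a + 1).Prime) (hp' : (c' * r + a' + 1).Prime) : c = c' ∧ a = a' := by
  have h1 : c * (c' * r + a' + 1) = c' * (c * r + a + 1) := by
    calc c * (c' * r + a' + 1) = c * c' * r + c * (a' + 1) := by ring
      _ = c * c' * r + c' * (a + 1) := by rw [h]
      _ = _ := by ring
  have h2 : c * r + a + 1 = c' * r + a' + 1 := by
    by_contra hne
    have h3 : (c * r + a + 1) ∣ c * (c' * r + a' + 1) := by rw [h1]; exact Dvd.intro_left _ rfl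
    rcases (hp.dvd_mul).mp h3 with h4 | h4
    · have := Nat.le_of_dvd (by omega) h4
      nlinarith
    · exact hne ((Nat.prime_dvd_prime_iff_eq hp hp').mp h4)
  have h3 : c = c' := by
    rw [h2] at h1
    exact Nat.eq_of_mul_eq_mul_right hp'.pos h1
  subst h3
  exact ⟨rfl, by omega⟩

/-- bound for the constant terms of the forms -/
theorem Ch_const {U : Finset ℕ} {x : ℕ} (hU : ∀ u ∈ U, u ≤ x) :
    ∀ {j : ℕ} {l : List (ℕ × ℕ)}, l ∈ Ch U j → ∀ f ∈ l, f.2 ≤ 2 ^ j * x
  | 0, l, h, f, hf => by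
    rw [Ch, mem_singleton] at h
    rw [h, List.mem_singleton] at hf
    rw [hf]; simp
  | j + 1, l, h, f, hf => by
    rw [Ch, mem_biUnion] at h
    obtain ⟨l', h1, h2⟩ := h
    obtain ⟨g, hg, rfl⟩ := mem_image.mp h2
    have hlen := Ch_length h1
    have hpow : 2 ^ (j + 1) * x = 2 ^ j * x + 2 ^ j * x := by ring
    have hpos : 1 ≤ 2 ^ j := Nat.one_le_two_pow
    rw [hpow]
    rw [List.mem_cons] at hf
    rcases hf with rfl | hf
    · obtain ⟨y, t, rfl⟩ : ∃ x t, l' = x :: t := by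
        cases l' with
        | nil => simp at hlen
        | cons x t => exact ⟨x, t, rfl⟩
      have hx := Ch_const hU h1 y (List.mem_cons_self)
      rw [nextForms, List.headD_cons, mem_union, mem_image, mem_image] at hg
      rcases hg with ⟨u, hu, rfl⟩ | ⟨b, hb, rfl⟩
      · have h6 := hU u hu
        have h5 : x ≤ 2 ^ j * x := Nat.le_mul_of_pos_left _ (by omega)
        simp only
        omega
      · have hb' := Ch_const hU h1 b (List.mem_toFinset.mp hb)
        simp only
        omega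
    · have := Ch_const hU h1 f hf
      omega

/-- The number of the primes `p ≤ x` for which all the forms of a given chain have distinct values, one less than
primes. -/
theorem chain_sieve (L : ℕ) : ∃ C : ℝ, 0 < C ∧ ∃ x₀ : ℕ, ∀ x : ℕ, x₀ ≤ x → ∀ U : Finset ℕ, (∀ u ∈ U, u ≤ x) →
    ∀ l ∈ Ch U L, (#((Nat.primesLE x).filter fun p => (l.map (val (p - 1))).Nodup ∧
      ∀ f ∈ l, (val (p - 1) f + 1).Prime) : ℝ) ≤
      C * Real.log (Real.log x) ^ C * (x / Real.log x ^ (L + 1)) := by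
  classical
  obtain ⟨C, hC1, hsv⟩ := Pool.Agent.Y949.DK.t_SV (L + 1)
  obtain ⟨C', hC'0, hsg⟩ := sg_le
  obtain ⟨Y₀, hY₀⟩ := eventually_atTop.1 hsv
  obtain ⟨K, hK⟩ : ∃ K : ℝ, K = (L + 1 : ℕ) + (L + 1 : ℕ) * (L + 1 : ℕ) := ⟨_, rfl⟩
  have hK0 : 0 ≤ K := by rw [hK]; positivity
  obtain ⟨M, hM⟩ : ∃ M : ℝ, M = C * Real.exp (C * (K * (Real.log 2 + C'))) + C * K := ⟨_, rfl⟩
  have hM0 : 0 < M := by
    rw [hM]
    have : 0 < C := by linarith
    positivity
  have hev : ∀ᶠ x : ℕ in atTop, 2 ≤ Real.log x ∧ Real.exp 1 ≤ Real.log (Real.log x) := by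
    have e1 : Tendsto (fun x : ℕ => Real.log (x : ℝ)) atTop atTop :=
      Real.tendsto_log_atTop.comp tendsto_natCast_atTop_atTop
    have e2 : Tendsto (fun x : ℕ => Real.log (Real.log (x : ℝ))) atTop atTop := Real.tendsto_log_atTop.comp e1
    filter_upwards [e1.eventually_ge_atTop 2, e2.eventually_ge_atTop (Real.exp 1)] with x h1 h2
    exact ⟨h1, h2⟩
  obtain ⟨x₁, hx₁⟩ := eventually_atTop.1 hev
  refine ⟨M, hM0, max (max x₁ ⌈Y₀⌉₊) (2 ^ (2 * L + 1) + 10), fun x hx U hU l hl => ?_⟩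
  obtain ⟨hl2, hll⟩ := hx₁ x ((le_max_left _ _).trans ((le_max_left _ _).trans hx))
  have hxY : Y₀ ≤ x := Nat.ceil_le.mp ((le_max_right _ _).trans ((le_max_left _ _).trans hx))
  have hx3 : 2 ^ (2 * L + 1) + 10 ≤ x := (le_max_right _ _).trans hx
  have hx10 : 10 ≤ x := le_trans (Nat.le_add_left 10 _) hx3
  have hxr : (10 : ℝ) ≤ x := by exact_mod_cast hx10
  have he1 : 1 ≤ Real.exp 1 := Real.one_le_exp (by norm_num)
  have hll1 : 1 ≤ Real.log (Real.log x) := by linarith
  by_cases hne : ((Nat.primesLE x).filter fun p => (l.map (val (p - 1))).Nodup ∧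
      ∀ f ∈ l, (val (p - 1) f + 1).Prime).Nonempty
  · obtain ⟨p₁, hp₁⟩ := hne
    obtain ⟨hp1, hp2, hp3⟩ := mem_filter.mp hp₁
    have hp₁p := (Nat.mem_primesLE.mp hp1).2
    have hlnd : l.Nodup := List.Nodup.of_map _ hp2
    obtain ⟨φ, hφ⟩ : ∃ φ : ℕ × ℕ → ℤ × ℤ, φ = fun f => ((f.1 : ℤ), (f.2 : ℤ) + 1) := ⟨_, rfl⟩
    have hφinj : Function.Injective φ := by
      rw [hφ]
      rintro ⟨a, b⟩ ⟨c, d⟩ h
      simp only [Prod.mk.injEq] at h
      ext
      · exact_mod_cast h.1
      · have := h.2; simp only; omega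
    obtain ⟨F, hF⟩ : ∃ F, F = l.toFinset.image φ := ⟨_, rfl⟩
    have hFc : F.card = L + 1 := by
      rw [hF, card_image_of_injective _ hφinj, List.toFinset_card_of_nodup hlnd, Ch_length hl]
    have hmemF : ∀ f ∈ F, ∃ g ∈ l, f = φ g := by
      intro f hf
      rw [hF] at hf
      obtain ⟨g, hg, rfl⟩ := mem_image.mp hf
      exact ⟨g, List.mem_toFinset.mp hg, rfl⟩
    have hF1 : ∀ f ∈ F, f.1 ≠ 0 := by
      intro f hf
      obtain ⟨g, hg, rfl⟩ := hmemF f hf
      have := (Ch_coeff hl g hg).1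
      rw [hφ]; simp only; omega
    have hF2 : ∀ f ∈ F, ∀ g ∈ F, f ≠ g → f.1 * g.2 - g.1 * f.2 ≠ 0 := by
      intro f hf g hg hfg h0
      obtain ⟨f', hf', rfl⟩ := hmemF f hf
      obtain ⟨g', hg', rfl⟩ := hmemF g hg
      refine hfg (congrArg φ ?_)
      rw [hφ] at h0
      simp only at h0
      have h1 : f'.1 * (g'.2 + 1) = g'.1 * (f'.2 + 1) := by
        have : (f'.1 : ℤ) * (g'.2 + 1) = g'.1 * (f'.2 + 1) := by linarith
        exact_mod_cast this
      have h2 := not_proportional (r := p₁ - 1) (Ch_coeff hl f' hf').1 (Ch_coeff hl g' hg').1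
        (by have := hp₁p.two_le; omega) h1 (hp3 f' hf') (hp3 g' hg')
      exact Prod.ext h2.1 h2.2
    have hmain := hY₀ (x : ℝ) hxY F hFc hF1 hF2
    rw [Nat.floor_natCast] at hmain
    have hcount : #((Nat.primesLE x).filter fun p => (l.map (val (p - 1))).Nodup ∧
        ∀ f ∈ l, (val (p - 1) f + 1).Prime) ≤
        #((Icc 1 x).filter (fun n : ℕ => ∀ f ∈ F, (f.1 * (n : ℤ) + f.2).toNat.Prime)) := by
      refine card_le_card_of_injOn (fun p => p - 1) ?_ ?_
      · intro p hp
        obtain ⟨h1, -, h3⟩ := mem_filter.mp (mem_coe.mp hp)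
        obtain ⟨h4, h5⟩ := Nat.mem_primesLE.mp h1
        have := h5.two_le
        rw [mem_coe, mem_filter, mem_Icc]
        refine ⟨⟨?_, ?_⟩, fun f hf => ?_⟩
        · show 1 ≤ p - 1
          omega
        · show p - 1 ≤ x
          omega
        obtain ⟨g, hg, rfl⟩ := hmemF f hf
        have h6 := h3 g hg
        rw [hφ]
        simp only
        have h7 : ((g.1 : ℤ) * ((p - 1 : ℕ) : ℤ) + ((g.2 : ℤ) + 1)).toNat = val (p - 1) g + 1 := by
          unfold val
          have : (g.1 : ℤ) * ((p - 1 : ℕ) : ℤ) + ((g.2 : ℤ) + 1) = ((g.1 * (p - 1) + g.2 + 1 : ℕ) : ℤ) := by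
            push_cast; ring
          rw [this, Int.toNat_natCast]
        rw [h7]; exact h6
      · intro p hp p' hp' he
        have a1 := (Nat.mem_primesLE.mp (mem_filter.mp (mem_coe.mp hp)).1).2.two_le
        have a2 := (Nat.mem_primesLE.mp (mem_filter.mp (mem_coe.mp hp')).1).2.two_le
        simp only at he
        omega
    have hcount' : (#((Nat.primesLE x).filter fun p => (l.map (val (p - 1))).Nodup ∧
        ∀ f ∈ l, (val (p - 1) f + 1).Prime) : ℝ) ≤
        #((Icc 1 x).filter (fun n : ℕ => ∀ f ∈ F, (f.1 * (n : ℤ) + f.2).toNat.Prime)) := by exact_mod_cast hcount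
    refine hcount'.trans (hmain.trans ?_)
    -- the singular factor
    obtain ⟨Z, hZ⟩ : ∃ Z, Z = 2 * Real.log x := ⟨_, rfl⟩
    have hZ4 : 4 ≤ Z := by rw [hZ]; linarith
    obtain ⟨T, hT⟩ : ∃ T, T = Real.log (Real.log Z) + C' := ⟨_, rfl⟩
    have hsmall : ∀ n : ℕ, n ≤ x ^ 2 → sg n ≤ T := by
      intro n hn
      rw [hT]
      refine hsg Z hZ4 n ?_
      rcases Nat.eq_zero_or_pos n with rfl | hpos
      · simp; linarith
      · rw [hZ]
        have h1 : Real.log n ≤ Real.log ((x : ℝ) ^ 2) :=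
          Real.log_le_log (by exact_mod_cast hpos) (by exact_mod_cast hn)
        rw [Real.log_pow] at h1
        exact_mod_cast h1
    have hpowx : 2 ^ L * (2 ^ L * x + 1) ≤ x ^ 2 := by
      have h1 : 2 ^ (2 * L + 1) = 2 * (2 ^ L * 2 ^ L) := by rw [pow_succ, two_mul L, pow_add]; ring
      have h2 : 1 ≤ 2 ^ L := Nat.one_le_two_pow
      have h3 : 2 ^ L * (2 ^ L * x + 1) ≤ 2 ^ (2 * L + 1) * x := by
        rw [h1]
        nlinarith [Nat.mul_le_mul h2 h2]
      calc _ ≤ 2 ^ (2 * L + 1) * x := h3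
        _ ≤ x * x := Nat.mul_le_mul_right _ (by omega)
        _ = x ^ 2 := by ring
    have hb1 : ∀ f ∈ F, sg f.1.natAbs ≤ T := by
      intro f hf
      obtain ⟨g, hg, rfl⟩ := hmemF f hf
      have h1 := (Ch_coeff hl g hg).2
      rw [hφ]
      simp only [Int.natAbs_natCast]
      refine hsmall _ (le_trans h1 (le_trans ?_ hpowx))
      exact Nat.le_mul_of_pos_right _ (by positivity)
    have hb2 : ∀ f ∈ F, ∀ g ∈ F, sg (f.1 * g.2 - g.1 * f.2).natAbs ≤ T := by
      intro f hf g hg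
      obtain ⟨f', hf', rfl⟩ := hmemF f hf
      obtain ⟨g', hg', rfl⟩ := hmemF g hg
      have a1 := (Ch_coeff hl f' hf').2
      have a2 := (Ch_coeff hl g' hg').2
      have b1 := Ch_const hU hl f' hf'
      have b2 := Ch_const hU hl g' hg'
      have c1 : f'.1 * (g'.2 + 1) ≤ 2 ^ L * (2 ^ L * x + 1) := Nat.mul_le_mul a1 (by omega)
      have c2 : g'.1 * (f'.2 + 1) ≤ 2 ^ L * (2 ^ L * x + 1) := Nat.mul_le_mul a2 (by omega)
      refine hsmall _ (le_trans ?_ hpowx)
      rw [hφ]
      simp only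
      have e1 : (f'.1 : ℤ) * ((g'.2 : ℤ) + 1) = ((f'.1 * (g'.2 + 1) : ℕ) : ℤ) := by push_cast; ring
      have e2 : (g'.1 : ℤ) * ((f'.2 : ℤ) + 1) = ((g'.1 * (f'.2 + 1) : ℕ) : ℤ) := by push_cast; ring
      rw [e1, e2]
      omega
    have hT0 : 0 ≤ Real.log 2 + Real.log (Real.log (Real.log x)) := by
      have := Real.log_nonneg hll1
      have := Real.log_pos (show (1 : ℝ) < 2 by norm_num)
      linarith
    have hTle : T ≤ Real.log (Real.log (Real.log x)) + (Real.log 2 + C') := by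
      rw [hT, hZ]
      have h1 : Real.log (2 * Real.log x) ≤ 2 * Real.log (Real.log x) := by
        rw [Real.log_mul (by norm_num) (by linarith)]
        have := Real.log_two_lt_d9
        linarith
      have h2 : Real.log (Real.log (2 * Real.log x)) ≤ Real.log (2 * Real.log (Real.log x)) := by
        refine Real.log_le_log ?_ h1
        exact Real.log_pos (by linarith)
      have h3 : Real.log (2 * Real.log (Real.log x)) = Real.log 2 + Real.log (Real.log (Real.log x)) :=
        Real.log_mul (by norm_num) (by linarith)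
      linarith
    have hsum : ∑ f ∈ F, sg f.1.natAbs + ∑ f ∈ F, ∑ g ∈ F, sg (f.1 * g.2 - g.1 * f.2).natAbs ≤ K * T := by
      have h1 : ∑ f ∈ F, sg f.1.natAbs ≤ (L + 1 : ℕ) * T := by
        refine (sum_le_sum hb1).trans (le_of_eq ?_)
        rw [sum_const, nsmul_eq_mul, hFc]
      have h2 : ∑ f ∈ F, ∑ g ∈ F, sg (f.1 * g.2 - g.1 * f.2).natAbs ≤ (L + 1 : ℕ) * ((L + 1 : ℕ) * T) := by
        refine (sum_le_sum fun f hf => sum_le_sum (hb2 f hf)).trans (le_of_eq ?_)
        rw [sum_const, sum_const, nsmul_eq_mul, nsmul_eq_mul, hFc]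
      rw [hK]
      linarith
    have hC0 : 0 < C := by linarith
    have hexp : Real.exp (C * (∑ f ∈ F, sg f.1.natAbs + ∑ f ∈ F, ∑ g ∈ F, sg (f.1 * g.2 - g.1 * f.2).natAbs)) ≤
        Real.exp (C * (K * (Real.log 2 + C'))) * Real.log (Real.log x) ^ (C * K) := by
      rw [Real.rpow_def_of_pos (by linarith), ← Real.exp_add]
      refine Real.exp_le_exp.mpr ?_
      calc C * (∑ f ∈ F, sg f.1.natAbs + ∑ f ∈ F, ∑ g ∈ F, sg (f.1 * g.2 - g.1 * f.2).natAbs)
          ≤ C * (K * T) := by gcongr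
        _ ≤ C * (K * (Real.log (Real.log (Real.log x)) + (Real.log 2 + C'))) := by gcongr
        _ = _ := by ring
    have hpow : Real.log (Real.log x) ^ (C * K) ≤ Real.log (Real.log x) ^ M := by
      refine Real.rpow_le_rpow_of_exponent_le hll1 ?_
      rw [hM]
      have : 0 < C * Real.exp (C * (K * (Real.log 2 + C'))) := by positivity
      linarith
    have hMge : C * Real.exp (C * (K * (Real.log 2 + C'))) ≤ M := by
      rw [hM]
      have : 0 ≤ C * K := by positivity
      linarith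
    have hX0 : 0 ≤ (x : ℝ) / Real.log x ^ (L + 1) := by positivity
    calc C * Real.exp (C * (∑ f ∈ F, sg f.1.natAbs + ∑ f ∈ F, ∑ g ∈ F, sg (f.1 * g.2 - g.1 * f.2).natAbs)) *
          (x / Real.log x ^ (L + 1))
        ≤ C * (Real.exp (C * (K * (Real.log 2 + C'))) * Real.log (Real.log x) ^ (C * K)) *
          (x / Real.log x ^ (L + 1)) := by gcongr
      _ = (C * Real.exp (C * (K * (Real.log 2 + C')))) * Real.log (Real.log x) ^ (C * K) *
          (x / Real.log x ^ (L + 1)) := by ring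
      _ ≤ M * Real.log (Real.log x) ^ M * (x / Real.log x ^ (L + 1)) := by gcongr
  · rw [not_nonempty_iff_eq_empty] at hne
    rw [hne, card_empty, Nat.cast_zero]
    have : 0 ≤ Real.log (Real.log x) ^ M := Real.rpow_nonneg (by linarith) _
    positivity

end Pool.Agent.H550U
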