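import Pool.Agent.H550U.Events
import Pool.Agent.R460.GP.Conv
import Pool.Agent.H550U.PiBounds

/-!
# Most initial sets with at least `K log x log log x` elements survive `L` steps
-/

namespace Pool.Agent.H550U

open Finset Filter
open scoped Topology

/-- few exceptional even numbers -/
lemma few_exceptional (A : ℕ) : ∃ X₀ : ℝ, ∀ X : ℝ, X₀ ≤ X → ∃ E : Finset ℕ,
    (#E : ℝ) ≤ X / Real.log X ^ A ∧ ∀ h : ℕ, 0 < h → (h : ℝ) ≤ X → 2 ∣ h → h ∉ E →
      ∀ x : ℕ, (x : ℝ) ≤ X → X / Real.log X ^ A ≤ x →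
        (x : ℝ) / (20 * Real.log X ^ 2) ≤ #((Nat.primesLE x).filter fun p => (p + h).Prime) := by
  obtain ⟨c, hc⟩ := Pool.Agent.R460.GP.pairs_few (1 / 10) (by norm_num) A 0
  obtain ⟨X₀, h0⟩ := hc 0
  refine ⟨max X₀ 1, fun X hX => ?_⟩
  obtain ⟨D, -, -, hD⟩ := h0 X ((le_max_left _ _).trans hX)
  have hX1 : 1 ≤ X := (le_max_right _ _).trans hX
  obtain ⟨hfin, hcard⟩ := hD 1 le_rfl (by
    rw [Nat.cast_one]
    exact Real.one_le_rpow hX1 (by norm_num)) 0 (Or.inl (by simp))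
  refine ⟨hfin.toFinset, ?_, ?_⟩
  · rw [← Set.ncard_eq_toFinset_card _ hfin]
    refine hcard.trans (le_of_eq ?_)
    rw [Nat.cast_one, one_mul]
  · intro h h0 hhX h2 hE x hxX hlen
    have hall : Pool.Agent.R460.GP.AllWindows A X h := by
      by_contra hcon
      refine hE ?_
      rw [Set.Finite.mem_toFinset]
      exact ⟨h0, hhX, h2, by simpa using Int.modEq_one, hcon⟩
    have h3 := hall 0 x le_rfl hxX (by rw [sub_zero]; exact hlen)
    have h5 : (Pool.Agent.R460.GP.pairs h 0 x) = #((Nat.primesLE x).filter fun p => (p + h).Prime) := by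
      unfold Pool.Agent.R460.GP.pairs
      rw [← Set.ncard_coe_finset]
      congr 1
      ext p
      rw [Set.mem_ofPred_eq, coe_filter, Set.mem_ofPred_eq, Nat.mem_primesLE]
      constructor
      · rintro ⟨a1, a2, a3, a4⟩
        exact ⟨⟨by exact_mod_cast a4, a1⟩, a2⟩
      · rintro ⟨⟨a1, a2⟩, a3⟩
        exact ⟨a2, a3, by exact_mod_cast a2.pos, by exact_mod_cast a1⟩
    rw [h5, sub_zero] at h3
    refine le_trans ?_ h3
    have h6 : 1 ≤ Pool.Agent.H560R3.GB.sing h := Pool.Agent.R460.GS.one_le_sing h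
    have h7 : (0 : ℝ) ≤ x := Nat.cast_nonneg x
    calc (x : ℝ) / (20 * Real.log X ^ 2) = 1 / 20 * (1 * x / Real.log X ^ 2) := by
          rw [one_mul, ← div_div, div_right_comm]; ring
      _ ≤ _ := by gcongr

/-- Most initial sets with at least `K log x log log x` elements survive `L` steps. -/
theorem survive (L B A : ℕ) : ∃ K : ℝ, ∃ x₀ : ℕ, ∀ x : ℕ, x₀ ≤ x → ∀ m : ℕ,
    K * Real.log x * Real.log (Real.log x) ≤ m → (m : ℝ) ≤ Real.log x ^ B →
    (({S : Finset ℕ | S ∈ powersetCard m (Nat.primesLE x) ∧ ¬ Lasts S L}).ncard : ℝ) ≤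
      ((Nat.primeCounting x).choose m : ℝ) / Real.log x ^ A := by
  classical
  obtain ⟨x₁, hx₁⟩ := pi_bounds
  obtain ⟨X₀, hX₀⟩ := few_exceptional (B * L + A + 2)
  obtain ⟨K₀, hK₀⟩ : ∃ K₀ : ℝ, K₀ = (B * L + A + 1 : ℕ) := ⟨_, rfl⟩
  have hK₀1 : 1 ≤ K₀ := by
    rw [hK₀]; exact_mod_cast (by omega : 1 ≤ B * L + A + 1)
  obtain ⟨M, hM⟩ : ∃ M : ℝ, M = L * (L * (2 * L) ^ L) * (2 ^ (L + 1) + 1) + 2 ^ L + 4 * L + 10 := ⟨_, rfl⟩
  have hM0 : 0 ≤ (L : ℝ) * (L * (2 * L) ^ L) * (2 ^ (L + 1) + 1) := by positivity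
  have hM1 : (0 : ℝ) < 2 ^ L := by positivity
  have hM2 : (0 : ℝ) ≤ L := Nat.cast_nonneg L
  have hev : ∀ᶠ x : ℕ in atTop, M ≤ Real.log x ∧ 1 ≤ Real.log (Real.log x) ∧ Real.log x ^ (B + 1) ≤ x / 2 := by
    have e1 : Tendsto (fun x : ℕ => Real.log (x : ℝ)) atTop atTop :=
      Real.tendsto_log_atTop.comp tendsto_natCast_atTop_atTop
    have e2 : Tendsto (fun x : ℕ => Real.log (Real.log (x : ℝ))) atTop atTop := Real.tendsto_log_atTop.comp e1
    have e3 : Tendsto (fun x : ℝ => Real.log x ^ (B + 1) / x) atTop (𝓝 0) := by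
      have := Real.isLittleO_pow_log_id_atTop (n := B + 1)
      exact this.tendsto_div_nhds_zero
    have e4 := (e3.comp tendsto_natCast_atTop_atTop).eventually (gt_mem_nhds (show (0 : ℝ) < 1 / 2 by norm_num))
    filter_upwards [e1.eventually_ge_atTop M, e2.eventually_ge_atTop 1, e4, eventually_gt_atTop 0] with x h1 h2 h3 h4
    refine ⟨h1, h2, ?_⟩
    have h5 : (0 : ℝ) < x := by exact_mod_cast h4
    simp only [Function.comp_apply] at h3
    rw [div_lt_iff₀ h5] at h3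
    linarith
  obtain ⟨x₂, hx₂⟩ := eventually_atTop.1 hev
  refine ⟨320 * K₀, max (max x₁ x₂) (⌈X₀⌉₊ + 10), fun x hx m hm1 hm2 => ?_⟩
  obtain ⟨hπ1, hπ2⟩ := hx₁ x ((le_max_left _ _).trans ((le_max_left _ _).trans hx))
  obtain ⟨hlM, hll, hlB⟩ := hx₂ x ((le_max_right _ _).trans ((le_max_left _ _).trans hx))
  have hx3 : ⌈X₀⌉₊ + 10 ≤ x := (le_max_right _ _).trans hx
  have hxX0 : X₀ ≤ x := Nat.ceil_le.mp (by omega)
  have hx10 : (10 : ℝ) ≤ x := by exact_mod_cast (by omega : 10 ≤ x)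
  have hx0 : (0 : ℝ) < x := by linarith
  obtain ⟨l, hl⟩ : ∃ l, l = Real.log x := ⟨_, rfl⟩
  rw [← hl] at hπ1 hπ2 hlM hll hlB hm1 hm2 ⊢
  have hl10 : 10 ≤ l := by linarith
  have hl0 : 0 < l := by linarith
  have hllog : Real.log l = Real.log l := rfl
  obtain ⟨P, hP⟩ : ∃ P, P = Nat.primesLE x := ⟨_, rfl⟩
  rw [← hP] at hπ1 hπ2 ⊢
  have hPc : Nat.primeCounting x = #P := by rw [hP, Nat.primesLE_card_eq_primeCounting]
  rw [hPc]
  -- `X`
  obtain ⟨X, hX⟩ : ∃ X : ℝ, X = 2 ^ L * x := ⟨_, rfl⟩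
  have h2L : (1 : ℝ) ≤ 2 ^ L := one_le_pow₀ (by norm_num)
  have hxX : (x : ℝ) ≤ X := by rw [hX]; nlinarith
  obtain ⟨E, hE1, hE2⟩ := hX₀ X (hxX0.trans hxX)
  have hlX : Real.log X = L * Real.log 2 + l := by
    rw [hX, Real.log_mul (by positivity) (by positivity), Real.log_pow, hl]
  have hlog2 := Real.log_two_lt_d9
  have hlog2' := Real.log_two_gt_d9
  have hlX1 : l ≤ Real.log X := by rw [hlX]; nlinarith
  have hlX2 : Real.log X ≤ 2 * l := by rw [hlX]; nlinarith
  -- `m`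
  have hmr : 320 * K₀ * l ≤ m := by
    refine le_trans ?_ hm1
    have : 0 ≤ 320 * K₀ * l := by positivity
    nlinarith
  have hmL : (2 * L + 2 : ℝ) ≤ m := by nlinarith
  have hm2L : 2 * L + 2 ≤ m := by exact_mod_cast hmL
  have hmP : m ≤ #P := by
    have h1 : (m : ℝ) ≤ #P := by
      refine hm2.trans (le_trans ?_ hπ1)
      rw [le_div_iff₀ (by positivity)]
      have : l ^ (B + 1) = l ^ B * l := pow_succ _ _
      nlinarith
    exact_mod_cast h1
  have hP0 : (0 : ℝ) < #P := by exact_mod_cast (by omega : 0 < #P)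
  have hPprime : ∀ p ∈ P, p.Prime := fun p hp => by rw [hP] at hp; exact (Nat.mem_primesLE.mp hp).2
  have hPle : ∀ p ∈ P, p ≤ x := fun p hp => by rw [hP] at hp; exact (Nat.mem_primesLE.mp hp).1
  -- the sets
  obtain ⟨a, ha⟩ : ∃ a, a = ⌈(x : ℝ) / (80 * l ^ 2)⌉₊ := ⟨_, rfl⟩
  obtain ⟨V, hV⟩ : ∃ V : ℕ → Finset ℕ, V = fun h => P.filter fun p => (p + h).Prime := ⟨_, rfl⟩
  obtain ⟨B1, hB1⟩ : ∃ B1 : ℕ → Finset (Finset ℕ), B1 = fun j => (powersetCard m P).filter fun S =>
    ∃ q, IsRun m j q ∧ S = (range m).image q ∧ q (m - 1 + j) - 1 ∈ E := ⟨_, rfl⟩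
  obtain ⟨B2, hB2⟩ : ∃ B2 : ℕ → Finset (Finset ℕ), B2 = fun j => (powersetCard m P).filter fun S =>
    ∃ q, IsRun m j q ∧ S = (range m).image q ∧ a ≤ #(V (q (m - 1 + j) - 1)) ∧
      Disjoint S (V (q (m - 1 + j) - 1)) := ⟨_, rfl⟩
  have hset : ({S : Finset ℕ | S ∈ powersetCard m P ∧ ¬ Lasts S L}) =
      (((powersetCard m P).filter fun S => ¬ Lasts S L : Finset (Finset ℕ)) : Set (Finset ℕ)) := by
    ext S; simp
  rw [hset, Set.ncard_coe_finset]
  have hsub : ((powersetCard m P).filter fun S => ¬ Lasts S L) ⊆ (range L).biUnion fun j => B1 j ∪ B2 j := by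
    intro S hS
    obtain ⟨hS1, hS2⟩ := mem_filter.mp hS
    obtain ⟨hSP, hSm⟩ := mem_powersetCard.mp hS1
    have hSne : S.Nonempty := card_pos.mp (by omega)
    obtain ⟨j, hj, q, hq, hSq, hst⟩ := exists_stuck hSne (fun p hp => hPprime p (hSP hp)) hS2
    rw [hSm] at hq hSq hst
    rw [mem_biUnion]
    refine ⟨j, mem_range.mpr hj, ?_⟩
    rw [mem_union]
    obtain ⟨y, hy⟩ : ∃ y, y = q (m - 1 + j) := ⟨_, rfl⟩
    have hyp : y.Prime := by rw [hy]; exact hq.prime (by omega)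
    have hy2 : 2 < y := by
      have h1 := hq.lt (i := 0) (j := m - 1 + j) (by omega) (by omega)
      have h2 := (hq.prime (n := 0) (by omega)).two_le
      omega
    have hyodd : 2 ∣ y - 1 := by
      have := hyp.eq_two_or_odd
      omega
    have hyX : ((y - 1 : ℕ) : ℝ) ≤ X := by
      have h1 := hq.doubling le_rfl
      have h2 : q (m - 1) ∈ S := by rw [hSq]; exact mem_image_of_mem _ (mem_range.mpr (by omega))
      have h3 := hPle _ (hSP h2)
      have h4 : y - 1 ≤ 2 ^ L * x := by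
        rw [hy]
        refine h1.trans ?_
        exact Nat.mul_le_mul (Nat.pow_le_pow_right (by norm_num) hj.le) (by omega)
      rw [hX]
      exact_mod_cast h4
    by_cases hyE : y - 1 ∈ E
    · left
      rw [hB1, mem_filter]
      exact ⟨hS1, q, hq, hSq, by rw [← hy]; exact hyE⟩
    · right
      have h1 := hE2 (y - 1) (by omega) hyX hyodd hyE x hxX (by
        have h2 : 2 ^ L ≤ Real.log X ^ (B * L + A + 2) := by
          have h3 : (2 : ℝ) ^ L ≤ Real.log X := by linarith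
          refine h3.trans ?_
          exact le_self_pow₀ (by linarith) (by omega)
        rw [div_le_iff₀ (pow_pos (by linarith) _)]
        calc X = 2 ^ L * x := hX
          _ ≤ Real.log X ^ (B * L + A + 2) * x := by gcongr
          _ = x * Real.log X ^ (B * L + A + 2) := by ring)
      rw [← hP] at h1
      rw [hB2, mem_filter]
      refine ⟨hS1, q, hq, hSq, ?_, ?_⟩
      · rw [← hy, hV, ha]
        refine Nat.ceil_le.mpr (le_trans ?_ h1)
        have h3 : Real.log X ^ 2 ≤ 4 * l ^ 2 := by nlinarith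
        have h4 : 0 < Real.log X := by linarith
        have h5 : 20 * Real.log X ^ 2 ≤ 80 * l ^ 2 := by linarith
        gcongr
      · rw [← hy, hV]
        refine disjoint_left.mpr fun s hs hsV => ?_
        have h3 := (mem_filter.mp hsV).2
        rw [hSq] at hs
        obtain ⟨i, hi, rfl⟩ := mem_image.mp hs
        refine hst i (by have := mem_range.mp hi; omega) ?_
        rw [← hy]
        have h4 : y + q i - 1 = q i + (y - 1) := by omega
        rw [h4]; exact h3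
  have hcard : (#((powersetCard m P).filter fun S => ¬ Lasts S L) : ℝ) ≤
      ∑ j ∈ range L, ((#(B1 j) : ℝ) + #(B2 j)) := by
    have h1 : #((powersetCard m P).filter fun S => ¬ Lasts S L) ≤ ∑ j ∈ range L, (#(B1 j) + #(B2 j)) := by
      refine (card_le_card hsub).trans (card_biUnion_le.trans (sum_le_sum fun j _ => ?_))
      exact card_union_le _ _
    exact_mod_cast h1
  -- constants
  obtain ⟨C, hC⟩ : ∃ C : ℝ, C = ((#P).choose m : ℝ) := ⟨_, rfl⟩
  have hC0 : 0 ≤ C := by rw [hC]; positivity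
  have hm0 : (1 : ℝ) ≤ m := by exact_mod_cast (by omega : 1 ≤ m)
  have hpoly : ∀ j ∈ range L, ((j : ℝ) + 1) * (2 * j) ^ j * (m : ℝ) ^ (j + 1) ≤ (L * (2 * L) ^ L) * l ^ (B * L) := by
    intro j hj
    have hj' := mem_range.mp hj
    have hj1 : (j : ℝ) + 1 ≤ L := by exact_mod_cast hj'
    have hL1 : (1 : ℝ) ≤ L := by
      have : (0 : ℝ) ≤ j := Nat.cast_nonneg j
      linarith
    have h1 : (2 * (j : ℝ)) ^ j ≤ (2 * L) ^ L := by
      calc (2 * (j : ℝ)) ^ j ≤ (2 * L) ^ j := by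
            have : (j : ℝ) ≤ L := by linarith
            gcongr
        _ ≤ (2 * L) ^ L := pow_le_pow_right₀ (by linarith) hj'.le
    have h2 : (m : ℝ) ^ (j + 1) ≤ l ^ (B * L) := by
      calc (m : ℝ) ^ (j + 1) ≤ (m : ℝ) ^ L := pow_le_pow_right₀ hm0 hj'
        _ ≤ (l ^ B) ^ L := by gcongr
        _ = l ^ (B * L) := (pow_mul _ _ _).symm
    gcongr
  have hb1 : ∀ j ∈ range L, (#(B1 j) : ℝ) ≤ (L * (2 * L) ^ L) * 2 ^ (L + 1) * (C / l ^ (A + 1)) := by
    intro j hj
    have h1 := event_one P hPprime m j (by omega) hmP E (B1 j) (fun S hS => by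
      rw [hB1] at hS
      exact mem_filter.mp hS)
    rw [← hC] at h1
    have h2 : (#E : ℝ) / #P ≤ 2 ^ (L + 1) / l ^ (B * L + A + 1) := by
      have h3 : (#E : ℝ) ≤ 2 ^ L * x / l ^ (B * L + A + 2) := by
        refine hE1.trans ?_
        rw [← hX]
        have : 0 ≤ X := by linarith
        gcongr
      have h4 : 2 ^ L * x / l ^ (B * L + A + 2) = 2 ^ (L + 1) / l ^ (B * L + A + 1) * (x / (2 * l)) := by
        rw [pow_succ (2 : ℝ) L, show B * L + A + 2 = (B * L + A + 1) + 1 by ring, pow_succ l]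
        field_simp
      rw [div_le_iff₀ hP0]
      refine h3.trans ?_
      rw [h4]
      gcongr
    calc (#(B1 j) : ℝ) ≤ (j + 1) * (2 * j) ^ j * #E * (m : ℝ) ^ (j + 1) / #P * C := h1
      _ = ((j : ℝ) + 1) * (2 * j) ^ j * (m : ℝ) ^ (j + 1) * (#E / #P) * C := by ring
      _ ≤ (L * (2 * L) ^ L) * l ^ (B * L) * (2 ^ (L + 1) / l ^ (B * L + A + 1)) * C := by
          have := hpoly j hj
          gcongr
      _ = (L * (2 * L) ^ L) * 2 ^ (L + 1) * (C / l ^ (A + 1)) := by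
          rw [show B * L + A + 1 = B * L + (A + 1) by ring, pow_add l (B * L) (A + 1)]
          field_simp
  have hb2 : ∀ j ∈ range L, (#(B2 j) : ℝ) ≤ (L * (2 * L) ^ L) * (C / l ^ (A + 1)) := by
    intro j hj
    have hj' := mem_range.mp hj
    have h1 := event_two P m j (by omega) hmP (by omega) V (fun h => by rw [hV]; exact filter_subset _ _) a (B2 j)
      (fun S hS => by
        rw [hB2] at hS
        exact mem_filter.mp hS)
    rw [← hC] at h1
    have h2 : Real.exp (-(a * (m - (j + 1)) / #P : ℝ)) ≤ 1 / l ^ (B * L + A + 1) := by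
      have h3 : (x : ℝ) / (80 * l ^ 2) ≤ a := by rw [ha]; exact Nat.le_ceil _
      have h4 : (m : ℝ) / 2 ≤ m - (j + 1) := by
        have : (j : ℝ) + 1 ≤ L := by exact_mod_cast hj'
        linarith
      have h5 : K₀ * Real.log l ≤ (a * (m - (j + 1)) / #P : ℝ) := by
        rw [le_div_iff₀ hP0]
        calc K₀ * Real.log l * #P ≤ K₀ * Real.log l * (2 * x / l) := by gcongr
          _ = x / (80 * l ^ 2) * ((320 * K₀ * l * Real.log l) / 2) := by
              field_simp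
              ring
          _ ≤ a * (m - (j + 1)) := by
              have : (320 * K₀ * l * Real.log l) / 2 ≤ m - (j + 1) := by linarith
              gcongr
      have h6 : 1 / l ^ (B * L + A + 1) = Real.exp (-(K₀ * Real.log l)) := by
        rw [Real.exp_neg, hK₀, ← Real.log_pow, Real.exp_log (by positivity), one_div]
      rw [h6]
      exact Real.exp_le_exp.mpr (by linarith)
    calc (#(B2 j) : ℝ) ≤ (j + 1) * (2 * j) ^ j * (#P * Real.exp (-(a * (m - (j + 1)) / #P : ℝ))) * (m : ℝ) ^ (j + 1) /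
          #P * C := h1
      _ = ((j : ℝ) + 1) * (2 * j) ^ j * (m : ℝ) ^ (j + 1) * Real.exp (-(a * (m - (j + 1)) / #P : ℝ)) * C := by
          field_simp
      _ ≤ (L * (2 * L) ^ L) * l ^ (B * L) * (1 / l ^ (B * L + A + 1)) * C := by
          have := hpoly j hj
          gcongr
      _ = (L * (2 * L) ^ L) * (C / l ^ (A + 1)) := by
          rw [show B * L + A + 1 = B * L + (A + 1) by ring, pow_add l (B * L) (A + 1)]
          field_simp
  refine hcard.trans ?_
  calc ∑ j ∈ range L, ((#(B1 j) : ℝ) + #(B2 j)) ≤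
      ∑ j ∈ range L, ((L * (2 * L) ^ L) * 2 ^ (L + 1) * (C / l ^ (A + 1)) + (L * (2 * L) ^ L) * (C / l ^ (A + 1))) :=
        sum_le_sum fun j hj => add_le_add (hb1 j hj) (hb2 j hj)
    _ = (L * (L * (2 * L) ^ L) * (2 ^ (L + 1) + 1)) * (C / l ^ (A + 1)) := by
        rw [sum_const, card_range, nsmul_eq_mul]; ring
    _ ≤ l * (C / l ^ (A + 1)) := by
        have : L * (L * (2 * L) ^ L) * (2 ^ (L + 1) + 1) ≤ l := by linarith
        gcongr
    _ = C / l ^ A := by
        rw [pow_succ]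
        field_simp
    _ = _ := by rw [hC]

end Pool.Agent.H550U
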