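import Pool.Agent.H646.Tuples

/-!
# Prime tuples whose consecutive differences are one less than a prime

An upper bound for the number of `(n, s)` with `n ≤ x`, `s` a vector of `k + 1` primes with `∑ (s l - 1) ≤ H`, such that
`n` and all the numbers `n + (s 0 - 1) + ... + (s j - 1)` are primes.
-/

namespace Pool.Agent.H550U.Thin

open Finset
open Pool.Agent.H646 (rat)
open Pool.Agent.H646.MomentM (rat_moment)
open Pool.Agent.H646.TuplesM (tuple_bound sum_le_of_inj prod_le_sum_pow rat_ge_one rat_nonneg)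

/-- the partial sums of `s l - 1` -/
def dd {k : ℕ} (s : Fin k → ℕ) (j : ℕ) : ℕ := ∑ l ∈ univ.filter (fun l : Fin k => (l : ℕ) < j), (s l - 1)

/-- the primes up to `H + 1` -/
def PH (H : ℕ) : Finset ℕ := (Icc 1 (H + 1)).filter Nat.Prime

lemma dd_succ {k : ℕ} (s : Fin k → ℕ) (l : Fin k) : dd s (l + 1) = dd s l + (s l - 1) := by
  unfold dd
  rw [show (univ.filter fun l' : Fin k => (l' : ℕ) < (l : ℕ) + 1) =
    insert l (univ.filter fun l' : Fin k => (l' : ℕ) < (l : ℕ)) by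
      ext l'
      simp only [mem_filter, mem_univ, true_and, mem_insert, Fin.ext_iff]
      omega]
  rw [sum_insert (by simp), add_comm]

lemma dd_mono {k : ℕ} (s : Fin k → ℕ) {i j : ℕ} (h : i ≤ j) : dd s i ≤ dd s j := by
  unfold dd
  refine sum_le_sum_of_subset fun l hl => ?_
  simp only [mem_filter, mem_univ, true_and] at hl ⊢
  omega

lemma dd_le {k : ℕ} (s : Fin k → ℕ) (j : ℕ) : dd s j ≤ ∑ l, (s l - 1) :=
  sum_le_sum_of_subset (filter_subset _ _)

lemma dd_strictMono {k : ℕ} {s : Fin k → ℕ} (hs : ∀ l, 2 ≤ s l) : StrictMono fun j : Fin (k + 1) => dd s j := by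
  intro i j hij
  have hij' : (i : ℕ) < j := hij
  have hj := j.isLt
  let l : Fin k := ⟨i, by omega⟩
  have h1 := dd_succ s l
  have h2 : dd s ((l : ℕ) + 1) ≤ dd s j := dd_mono s (by show (i : ℕ) + 1 ≤ j; omega)
  have h3 := hs l
  show dd s i < dd s j
  have h4 : dd s (l : ℕ) = dd s i := rfl
  omega

/-- the admissible vectors -/
def SH (k H : ℕ) : Finset (Fin k → ℕ) :=
  (Fintype.piFinset fun _ : Fin k => PH H).filter fun s => ∑ l, (s l - 1) ≤ H

lemma mem_SH {k H : ℕ} {s : Fin k → ℕ} (h : s ∈ SH k H) : (∀ l, s l ∈ PH H) ∧ ∑ l, (s l - 1) ≤ H := by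
  simpa [SH, Fintype.mem_piFinset] using h

lemma two_le_of_mem {H p : ℕ} (h : p ∈ PH H) : 2 ≤ p := (mem_filter.mp h).2.two_le

/-- one pair -/
lemma pair_sum {k : ℕ} {C : ℝ} (B H : ℕ) (hmom : ∑ n ∈ Icc 1 H, rat n ^ B ≤ C * H) (i j : Fin (k + 2)) (hij : i < j) :
    ∑ s ∈ SH (k + 1) H, rat (dd s j - dd s i) ^ B ≤ (#(PH H) : ℝ) ^ k * (C * H) := by
  classical
  have hij' : (i : ℕ) < j := hij
  have hj := j.isLt
  let l₀ : Fin (k + 1) := ⟨(j : ℕ) - 1, by omega⟩
  have hl₀ : (l₀ : ℕ) + 1 = j := by show (j : ℕ) - 1 + 1 = j; omega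
  let f : (Fin (k + 1) → ℕ) → (Fin k → ℕ) × ℕ := fun s => (fun l => s (l₀.succAbove l), dd s j - dd s i)
  have h1 := sum_le_of_inj (SH (k + 1) H) f
    ((Fintype.piFinset fun _ : Fin k => PH H) ×ˢ Icc 1 H) (fun b => rat b.2 ^ B)
    (fun b => pow_nonneg (rat_nonneg _) _) ?_ ?_
  · refine h1.trans ?_
    rw [sum_product]
    simp only [sum_const, nsmul_eq_mul, Fintype.card_piFinset, prod_const, card_univ, Fintype.card_fin, Nat.cast_pow]
    exact mul_le_mul_of_nonneg_left hmom (by positivity)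
  · intro s hs
    obtain ⟨hs1, hs2⟩ := mem_SH hs
    rw [mem_product]
    refine ⟨Fintype.mem_piFinset.mpr fun l => hs1 _, mem_Icc.mpr ⟨?_, ?_⟩⟩
    · have := dd_strictMono (fun l => two_le_of_mem (hs1 l)) hij
      simp only at this
      show 1 ≤ dd s j - dd s i
      omega
    · show dd s j - dd s i ≤ H
      have := dd_le s j
      omega
  · intro s hs s' hs' he
    obtain ⟨hs1, -⟩ := mem_SH hs
    obtain ⟨hs1', -⟩ := mem_SH hs'
    have e1 : ∀ l, s (l₀.succAbove l) = s' (l₀.succAbove l) := fun l => congrFun (Prod.ext_iff.mp he).1 l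
    have e2 : dd s j - dd s i = dd s' j - dd s' i := (Prod.ext_iff.mp he).2
    have e3 : ∀ l, l ≠ l₀ → s l = s' l := by
      intro l hl
      obtain ⟨l', rfl⟩ := Fin.exists_succAbove_eq hl
      exact e1 l'
    have e4 : dd s l₀ = dd s' l₀ := by
      unfold dd
      refine sum_congr rfl fun l hl => ?_
      rw [e3 l]
      rintro rfl
      simp at hl
    have e5 : dd s i = dd s' i := by
      unfold dd
      refine sum_congr rfl fun l hl => ?_
      rw [e3 l]
      rintro rfl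
      rw [mem_filter] at hl
      omega
    have e6 := dd_succ s l₀
    have e7 := dd_succ s' l₀
    rw [hl₀] at e6 e7
    have m1 : dd s i < dd s j := dd_strictMono (fun l => two_le_of_mem (hs1 l)) hij
    have m2 : dd s' i < dd s' j := dd_strictMono (fun l => two_le_of_mem (hs1' l)) hij
    have m3 := two_le_of_mem (hs1 l₀)
    have m4 := two_le_of_mem (hs1' l₀)
    funext l
    by_cases hl : l = l₀
    · rw [hl]; omega
    · exact e3 l hl

/-- The number of the tuples. -/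
theorem tuple_count (k : ℕ) : ∃ C > (0 : ℝ), ∃ x₀ : ℕ, ∀ x : ℕ, x₀ ≤ x → ∀ H : ℕ,
    (#{w ∈ Icc 1 x ×ˢ SH (k + 1) H | ∀ j : Fin (k + 2), (w.1 + dd w.2 j).Prime} : ℝ) ≤
      C * x / (Real.log x) ^ (k + 2) * ((#(PH H) : ℝ) ^ k * H) := by
  classical
  obtain ⟨C, hC, A, x₀, hb⟩ := tuple_bound (k + 2) (by omega)
  set Q : Finset (Fin (k + 2) × Fin (k + 2)) :=
    (univ : Finset (Fin (k + 2) × Fin (k + 2))).filter (fun q => q.1 < q.2) with hQ
  have hQne : Q.Nonempty := ⟨(0, 1), by rw [hQ, mem_filter]; exact ⟨mem_univ _, by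
    rw [Fin.lt_def]; simp⟩⟩
  obtain ⟨C2, hC2, hmom⟩ := rat_moment (A * #Q)
  have hQpos : (0 : ℝ) < #Q := by exact_mod_cast hQne.card_pos
  refine ⟨C * (#Q * C2), by positivity, max x₀ 1, ?_⟩
  intro x hx H
  have hx0 : x₀ ≤ x := le_trans (le_max_left _ _) hx
  have hlog : 0 ≤ Real.log x := Real.log_natCast_nonneg x
  have hcoef : 0 ≤ C * x / (Real.log x) ^ (k + 2) := by positivity
  set W := (Icc 1 x ×ˢ SH (k + 1) H).filter (fun w => ∀ j : Fin (k + 2), (w.1 + dd w.2 j).Prime) with hW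
  have hmaps : ∀ w ∈ W, w.2 ∈ SH (k + 1) H := fun w hw => (mem_product.mp (mem_filter.mp hw).1).2
  have hcard : #W = ∑ s ∈ SH (k + 1) H, #{w ∈ W | w.2 = s} := Finset.card_eq_sum_card_fiberwise hmaps
  have hfib : ∀ s ∈ SH (k + 1) H, #{w ∈ W | w.2 = s} ≤ #{n ∈ Icc 1 x | ∀ j : Fin (k + 2), (n + dd s j).Prime} := by
    intro s _
    apply Finset.card_le_card_of_injOn (fun w => w.1)
    · intro w hw
      rw [mem_coe, mem_filter] at hw
      obtain ⟨h1, h2⟩ := hw
      obtain ⟨h3, h4⟩ := mem_filter.mp h1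
      rw [mem_coe, mem_filter]
      refine ⟨(mem_product.mp h3).1, ?_⟩
      rw [← h2]; exact h4
    · intro w hw w' hw' h
      rw [mem_coe, mem_filter] at hw hw'
      exact Prod.ext h (hw.2.trans hw'.2.symm)
  have hR : ∀ s ∈ SH (k + 1) H, (∏ q ∈ (univ : Finset (Fin (k + 2) × Fin (k + 2))) with q.1 < q.2,
      rat (dd s q.2 - dd s q.1) ^ A) ≤ ∑ q ∈ Q, rat (dd s q.2 - dd s q.1) ^ (A * #Q) := by
    intro s hs
    have hmono := dd_strictMono (fun l => two_le_of_mem ((mem_SH hs).1 l))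
    rw [← hQ]
    refine (prod_le_sum_pow Q _ ?_ hQne).trans (le_of_eq ?_)
    · intro q hq
      have h1 := hmono (mem_filter.mp hq).2
      simp only at h1
      exact one_le_pow₀ (rat_ge_one (by omega))
    · apply Finset.sum_congr rfl
      intro q _
      rw [pow_mul]
  have hsum : ∑ s ∈ SH (k + 1) H, ∑ q ∈ Q, rat (dd s q.2 - dd s q.1) ^ (A * #Q) ≤
      #Q * ((#(PH H) : ℝ) ^ k * (C2 * H)) := by
    rw [Finset.sum_comm]
    calc _ ≤ ∑ _q ∈ Q, (#(PH H) : ℝ) ^ k * (C2 * H) :=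
          Finset.sum_le_sum fun q hq => pair_sum (A * #Q) H (hmom H) q.1 q.2 (mem_filter.mp hq).2
      _ = _ := by rw [Finset.sum_const, nsmul_eq_mul]
  calc (#W : ℝ) = ∑ s ∈ SH (k + 1) H, (#{w ∈ W | w.2 = s} : ℝ) := by
        rw [hcard]; push_cast; rfl
    _ ≤ ∑ s ∈ SH (k + 1) H, (C * x / (Real.log x) ^ (k + 2) *
          ∑ q ∈ Q, rat (dd s q.2 - dd s q.1) ^ (A * #Q)) := by
        apply Finset.sum_le_sum
        intro s hs
        have h1 : (#{w ∈ W | w.2 = s} : ℝ) ≤ (#{n ∈ Icc 1 x | ∀ j : Fin (k + 2), (n + dd s j).Prime} : ℝ) := by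
          exact_mod_cast hfib s hs
        have h2 := hb x hx0 (fun j : Fin (k + 2) => dd s j) (dd_strictMono (fun l => two_le_of_mem ((mem_SH hs).1 l)))
        exact (h1.trans h2).trans (mul_le_mul_of_nonneg_left (hR s hs) hcoef)
    _ = C * x / (Real.log x) ^ (k + 2) *
          ∑ s ∈ SH (k + 1) H, ∑ q ∈ Q, rat (dd s q.2 - dd s q.1) ^ (A * #Q) := by
        rw [Finset.mul_sum]
    _ ≤ C * x / (Real.log x) ^ (k + 2) * (#Q * ((#(PH H) : ℝ) ^ k * (C2 * H))) :=
        mul_le_mul_of_nonneg_left hsum hcoef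
    _ = _ := by ring

end Pool.Agent.H550U.Thin
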