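import Pool.Agent.H550U.ThinA

/-!
# Sequences of primes whose gaps are one less than a prime are thin

If `q` is a strictly increasing sequence of primes such that `q (n + 1) - q n + 1` is a prime for all `n ≥ n₀`, then for
every `β < 1` the number of `n ≥ n₀` with `q n ≤ x` is at most `C x / (log x (log log x) ^ β)`, where `C` depends only on
`β`.
-/

namespace Pool.Agent.H550U.Thin

open Finset

lemma sum_shift (f : ℕ → ℝ) (X : ℝ) (K n₀ e : ℕ) (h0 : ∀ n, n₀ ≤ n → 0 ≤ f n)
    (hX : ∀ n, n < e → f n ≤ X) (hX0 : 0 ≤ X) :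
    ∑ n ∈ Ico n₀ (e - K), (f (n + K) - f n) ≤ K * X := by
  have h1 : ∀ n, f (n + K) - f n = ∑ l ∈ range K, (f (n + l + 1) - f (n + l)) := by
    intro n
    have := Finset.sum_range_sub (fun l => f (n + l)) K
    simp only [add_zero] at this
    rw [← this]
    rfl
  simp only [h1]
  rw [sum_comm]
  calc ∑ l ∈ range K, ∑ n ∈ Ico n₀ (e - K), (f (n + l + 1) - f (n + l)) ≤ ∑ l ∈ range K, X := by
        refine sum_le_sum fun l hl => ?_
        rw [mem_range] at hl
        by_cases h2 : n₀ ≤ e - K
        · have h3 : ∑ n ∈ Ico n₀ (e - K), (f (n + l + 1) - f (n + l)) = f (e - K + l) - f (n₀ + l) := by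
            have := Finset.sum_Ico_sub (fun n => f (n + l)) h2
            rw [← this]
            refine sum_congr rfl fun n _ => ?_
            rw [show n + l + 1 = n + 1 + l by ring]
          rw [h3]
          rcases Nat.lt_or_ge (e - K + l) e with h4 | h4
          · have := hX _ h4
            have := h0 (n₀ + l) (by omega)
            linarith
          · have h5 : e - K = 0 := by omega
            have h6 : n₀ = 0 := by omega
            rw [h5, h6]
            simpa using hX0
        · rw [Ico_eq_empty (by omega)]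
          simpa using hX0
    _ = K * X := by rw [sum_const, card_range, nsmul_eq_mul]

/-- the count, in terms of the tuples -/
theorem count_le {q : ℕ → ℕ} (hp : ∀ n, (q n).Prime) (hq : StrictMono q) {n₀ : ℕ}
    (hg : ∀ n, n₀ ≤ n → (q (n + 1) - q n + 1).Prime) (k x e H : ℕ) (hH : 1 ≤ H) (he : ∀ n, q n ≤ x ↔ n < e) :
    ((e - n₀ : ℕ) : ℝ) ≤ (k + 1) + (k + 1) * x / H +
      #{w ∈ Icc 1 x ×ˢ SH (k + 1) H | ∀ j : Fin (k + 2), (w.1 + dd w.2 j).Prime} := by
  classical
  set K := k + 1 with hK
  set W := (Icc 1 x ×ˢ SH (k + 1) H).filter (fun w => ∀ j : Fin (k + 2), (w.1 + dd w.2 j).Prime) with hW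
  set T := Ico n₀ (e - K) with hT
  have hH0 : (0 : ℝ) < H := by exact_mod_cast hH
  have hsum := sum_shift (fun n => (q n : ℝ)) (x : ℝ) K n₀ e
    (fun n _ => by positivity) (fun n hn => by exact_mod_cast (he n).2 hn) (by positivity)
  -- the large ones
  have hbig : (#(T.filter fun n => ¬ q (n + K) ≤ q n + H) : ℝ) ≤ (k + 1) * x / H := by
    rw [le_div_iff₀ hH0]
    calc (#(T.filter fun n => ¬ q (n + K) ≤ q n + H) : ℝ) * H
        = ∑ n ∈ T.filter (fun n => ¬ q (n + K) ≤ q n + H), (H : ℝ) := by rw [sum_const, nsmul_eq_mul]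
      _ ≤ ∑ n ∈ T.filter (fun n => ¬ q (n + K) ≤ q n + H), ((q (n + K) : ℝ) - q n) := by
          refine sum_le_sum fun n hn => ?_
          have h1 : q n + H ≤ q (n + K) := (not_le.1 (mem_filter.mp hn).2).le
          have h2 : (q n : ℝ) + H ≤ q (n + K) := by exact_mod_cast h1
          linarith
      _ ≤ ∑ n ∈ T, ((q (n + K) : ℝ) - q n) := by
          refine sum_le_sum_of_subset_of_nonneg (filter_subset _ _) fun n _ _ => ?_
          have : (q n : ℝ) ≤ q (n + K) := by exact_mod_cast hq.monotone (by omega)
          linarith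
      _ ≤ K * x := hsum
      _ = (k + 1) * x := by rw [hK]; push_cast; ring
  -- the small ones
  have hsmall : #(T.filter fun n => q (n + K) ≤ q n + H) ≤ #W := by
    refine card_le_card_of_injOn (fun n => (q n, fun l : Fin (k + 1) => q (n + l + 1) - q (n + l) + 1)) ?_ ?_
    · intro n hn
      rw [mem_coe, mem_filter, hT, mem_Ico] at hn
      obtain ⟨⟨hn1, hn2⟩, hn3⟩ := hn
      have hdd : ∀ j, j ≤ k + 1 → q n + dd (fun l : Fin (k + 1) => q (n + l + 1) - q (n + l) + 1) j = q (n + j) := by
        intro j
        induction j with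
        | zero => intro _; simp [dd]
        | succ j ih =>
          intro hj
          have ih' := ih (by omega)
          have h1 := dd_succ (fun l : Fin (k + 1) => q (n + l + 1) - q (n + l) + 1) ⟨j, by omega⟩
          simp only at h1
          rw [h1]
          have h2 : q (n + j) < q (n + j + 1) := hq (by omega)
          rw [show n + (j + 1) = n + j + 1 by ring]
          omega
      have hsumd : ∑ l : Fin (k + 1), ((q (n + l + 1) - q (n + l) + 1) - 1) =
          dd (fun l : Fin (k + 1) => q (n + l + 1) - q (n + l) + 1) (k + 1) := by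
        unfold dd
        rw [filter_true_of_mem]
        intro l _
        exact l.isLt
      have hfin := hdd (k + 1) le_rfl
      rw [mem_coe, hW, mem_filter, mem_product]
      refine ⟨⟨mem_Icc.mpr ⟨(hp n).one_lt.le, (he n).2 (by omega)⟩, ?_⟩, ?_⟩
      · rw [SH, mem_filter, Fintype.mem_piFinset]
        refine ⟨fun l => ?_, ?_⟩
        · rw [PH, mem_filter, mem_Icc]
          have hl := l.isLt
          have h1 : q (n + l + 1) ≤ q (n + K) := hq.monotone (by omega)
          have h2 : q n ≤ q (n + l) := hq.monotone (by omega)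
          refine ⟨⟨?_, ?_⟩, hg (n + l) (by omega)⟩
          · show 1 ≤ q (n + l + 1) - q (n + l) + 1
            omega
          · show q (n + l + 1) - q (n + l) + 1 ≤ H + 1
            omega
        · rw [hsumd]
          rw [hK] at hn3
          omega
      · intro j
        have := hdd j (by have := j.isLt; omega)
        simp only
        rw [this]
        exact hp _
    · intro n hn n' hn' h
      exact hq.injective (Prod.ext_iff.mp h).1
  have hsplit : #T = #(T.filter fun n => q (n + K) ≤ q n + H) + #(T.filter fun n => ¬ q (n + K) ≤ q n + H) :=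
    (card_filter_add_card_filter_not _).symm
  have hTc : #T = e - K - n₀ := by rw [hT, Nat.card_Ico]
  have h1 : e - n₀ ≤ #T + K := by omega
  have h2 : ((e - n₀ : ℕ) : ℝ) ≤ #T + K := by exact_mod_cast h1
  have h3 : (#T : ℝ) = #(T.filter fun n => q (n + K) ≤ q n + H) + #(T.filter fun n => ¬ q (n + K) ≤ q n + H) := by
    exact_mod_cast hsplit
  have h4 : (#(T.filter fun n => q (n + K) ≤ q n + H) : ℝ) ≤ #W := by exact_mod_cast hsmall
  have h5 : (K : ℝ) = k + 1 := by rw [hK]; push_cast; ring
  rw [h3, h5] at h2
  linarith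

end Pool.Agent.H550U.Thin
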