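import Pool.Agent.H550U.ThinB
import Pool.Agent.H550U.Basic

/-!
# Sequences of primes whose gaps are one less than a prime are thin: the final bound
-/

namespace Pool.Agent.H550U.Thin

open Finset Filter

lemma card_PH (H : ℕ) : #(PH H) = Nat.primeCounting (H + 1) := by
  rw [← Nat.primesLE_card_eq_primeCounting]
  congr 1
  ext p
  simp only [PH, mem_filter, mem_Icc, Nat.mem_primesLE]
  constructor
  · rintro ⟨⟨_, h1⟩, h2⟩; exact ⟨h1, h2⟩
  · rintro ⟨h1, h2⟩; exact ⟨⟨h2.one_lt.le, h1⟩, h2⟩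

/-- the indices with `q n ≤ x` are an initial segment -/
lemma exists_cut {q : ℕ → ℕ} (hq : StrictMono q) (x : ℕ) : ∃ e, ∀ n, q n ≤ x ↔ n < e := by
  have hex : ∃ n, x < q n := ⟨x + 1, by have := hq.id_le (x + 1); simp only [id] at this; omega⟩
  classical
  refine ⟨Nat.find hex, fun n => ⟨fun h => ?_, fun h => not_lt.1 (Nat.find_min hex h)⟩⟩
  by_contra hc
  have h1 := Nat.find_spec hex
  have h2 := hq.monotone (not_lt.1 hc)
  omega

theorem thin_nonneg (β : ℝ) (hβ0 : 0 ≤ β) (hβ : β < 1) : ∃ C > (0 : ℝ), ∃ x₀ : ℕ, ∀ (q : ℕ → ℕ) (n₀ : ℕ),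
    (∀ n, (q n).Prime) → StrictMono q → (∀ n, n₀ ≤ n → (q (n + 1) - q n + 1).Prime) → ∀ x : ℕ, x₀ ≤ x →
      ({n : ℕ | n₀ ≤ n ∧ q n ≤ x}.ncard : ℝ) ≤ C * x / (Real.log x * Real.log (Real.log x) ^ β) := by
  obtain ⟨k, hk⟩ : ∃ k : ℕ, 2 * β / (1 - β) ≤ k := exists_nat_ge _
  obtain ⟨C1, hC1, x1, htup⟩ := tuple_count k
  have h1β : 0 < 1 - β := by linarith
  rw [div_le_iff₀ h1β] at hk
  obtain ⟨y0, hy0⟩ := eventually_atTop.1 (Chebyshev.eventually_primeCounting_le (ε := 1) one_pos)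
  -- largeness
  have hL : Tendsto (fun x : ℕ => Real.log x) atTop atTop :=
    Real.tendsto_log_atTop.comp tendsto_natCast_atTop_atTop
  have hLL : Tendsto (fun x : ℕ => Real.log (Real.log x)) atTop atTop := Real.tendsto_log_atTop.comp hL
  have hsq : ∀ᶠ x : ℕ in atTop, Real.log x ^ 2 ≤ x := by
    have h1 : (fun x : ℝ => Real.log x ^ (2 : ℝ)) =o[atTop] fun x : ℝ => x ^ (1 : ℝ) :=
      isLittleO_log_rpow_rpow_atTop 2 (by norm_num)
    have h3 := tendsto_natCast_atTop_atTop (R := ℝ) |>.eventually (h1.bound (c := 1) (by norm_num))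
    filter_upwards [h3, eventually_ge_atTop 1] with x hx hx1
    have h4 : 0 ≤ Real.log x := Real.log_natCast_nonneg x
    rw [Real.rpow_one, Real.norm_of_nonneg (by positivity), Real.norm_of_nonneg (by positivity)] at hx
    rw [one_mul] at hx
    calc Real.log (x : ℝ) ^ 2 = Real.log (x : ℝ) ^ (2 : ℝ) := (Real.rpow_two _).symm
      _ ≤ x := hx
  obtain ⟨x2, hx2⟩ := eventually_atTop.1 (hsq.and ((hL.eventually_ge_atTop (max y0 3)).and
    (hLL.eventually_ge_atTop 1)))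
  refine ⟨2 * (k + 1) + 2 * 12 ^ k * C1, by positivity, max x1 x2, ?_⟩
  intro q n₀ hp hq hg x hx
  obtain ⟨hsqx, hLx, hℓ⟩ := hx2 x ((le_max_right _ _).trans hx)
  obtain ⟨L, hLd⟩ : ∃ L, L = Real.log x := ⟨_, rfl⟩
  obtain ⟨ℓ, hℓd⟩ : ∃ ℓ, ℓ = Real.log L := ⟨_, rfl⟩
  rw [← hLd] at hsqx hLx hℓ ⊢
  rw [← hℓd] at hℓ ⊢
  have hL3 : 3 ≤ L := (le_max_right _ _).trans hLx
  have hLy : y0 ≤ L := (le_max_left _ _).trans hLx
  have hL0 : 0 < L := by linarith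
  have hℓ0 : 0 < ℓ := by linarith
  have hℓL : ℓ ≤ L := by
    rw [hℓd]
    have := Real.log_le_sub_one_of_pos hL0
    linarith
  obtain ⟨P, hPd⟩ : ∃ P, P = ℓ ^ β := ⟨_, rfl⟩
  rw [← hPd]
  have hP1 : 1 ≤ P := by rw [hPd]; exact Real.one_le_rpow hℓ hβ0
  have hP0 : 0 < P := by linarith
  have hPℓ : P ≤ ℓ := by
    rw [hPd]
    calc ℓ ^ β ≤ ℓ ^ (1 : ℝ) := Real.rpow_le_rpow_of_exponent_le hℓ hβ.le
      _ = ℓ := Real.rpow_one ℓ
  have hLP1 : 1 ≤ L * P := by nlinarith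
  have hLPx : L * P ≤ x := by nlinarith
  -- the parameter
  obtain ⟨H, hHd⟩ : ∃ H, H = ⌈L * P⌉₊ := ⟨_, rfl⟩
  have hH1 : L * P ≤ H := by rw [hHd]; exact Nat.le_ceil _
  have hH2 : (H : ℝ) ≤ 2 * (L * P) := by
    have := Nat.ceil_lt_add_one (show 0 ≤ L * P by positivity)
    rw [← hHd] at this
    linarith
  have hHL : L ≤ H := by nlinarith
  have hH0 : (0 : ℝ) < H := by linarith
  have hHn : 1 ≤ H := by exact_mod_cast (show (1 : ℝ) ≤ H by linarith)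
  -- primes
  have hpi : (#(PH H) : ℝ) ≤ 12 * (L * P) / ℓ := by
    have h1 := hy0 ((H + 1 : ℕ) : ℝ) (by push_cast; linarith)
    rw [Nat.floor_natCast] at h1
    rw [card_PH]
    refine h1.trans ?_
    have h2 : Real.log 4 + 1 ≤ 3 := by
      have : Real.log 4 = 2 * Real.log 2 := by
        rw [show (4 : ℝ) = 2 ^ 2 by norm_num, Real.log_pow]; norm_num
      have := Real.log_two_lt_d9
      linarith
    have h3 : ℓ ≤ Real.log ((H + 1 : ℕ) : ℝ) := by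
      rw [hℓd]
      exact Real.log_le_log hL0 (by push_cast; linarith)
    have h4 : ((H + 1 : ℕ) : ℝ) ≤ 4 * (L * P) := by push_cast; linarith
    have h5 : 0 ≤ Real.log 4 + 1 := by positivity
    calc (Real.log 4 + 1) * ((H + 1 : ℕ) : ℝ) / Real.log ((H + 1 : ℕ) : ℝ)
        ≤ (Real.log 4 + 1) * ((H + 1 : ℕ) : ℝ) / ℓ := by gcongr
      _ ≤ 3 * (4 * (L * P)) / ℓ := by gcongr
      _ = 12 * (L * P) / ℓ := by ring
  obtain ⟨e, he⟩ := exists_cut hq x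
  have hset : {n : ℕ | n₀ ≤ n ∧ q n ≤ x} = (Ico n₀ e : Finset ℕ) := by
    ext n
    rw [Set.mem_ofPred_eq, mem_coe, mem_Ico, he]
  rw [hset, Set.ncard_coe_finset, Nat.card_Ico]
  refine (count_le hp hq hg k x e H hHn he).trans ?_
  have hW := htup x ((le_max_left _ _).trans hx) H
  rw [← hLd] at hW
  -- the three terms
  have t1 : ((k : ℝ) + 1) ≤ (k + 1) * (x / (L * P)) := by
    have : 1 ≤ x / (L * P) := by rw [one_le_div (by positivity)]; exact hLPx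
    nlinarith [show (0 : ℝ) ≤ k + 1 by positivity]
  have t2 : ((k : ℝ) + 1) * x / H ≤ (k + 1) * (x / (L * P)) := by
    rw [mul_div_assoc]
    gcongr
  have t3 : C1 * x / L ^ (k + 2) * ((#(PH H) : ℝ) ^ k * H) ≤ 2 * 12 ^ k * C1 * (x / (L * P)) := by
    have a1 : (#(PH H) : ℝ) ^ k * H ≤ (12 * (L * P) / ℓ) ^ k * (2 * (L * P)) := by gcongr
    have a2 : (P / ℓ) ^ k * P ≤ 1 / P := by
      have b1 : P / ℓ = ℓ ^ (β - 1) := by rw [hPd, Real.rpow_sub_one hℓ0.ne']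
      rw [b1, hPd, ← Real.rpow_natCast, ← Real.rpow_mul hℓ0.le, ← Real.rpow_add hℓ0, one_div, ← Real.rpow_neg hℓ0.le]
      apply Real.rpow_le_rpow_of_exponent_le hℓ
      nlinarith
    calc C1 * x / L ^ (k + 2) * ((#(PH H) : ℝ) ^ k * H)
        ≤ C1 * x / L ^ (k + 2) * ((12 * (L * P) / ℓ) ^ k * (2 * (L * P))) := by gcongr
      _ = 2 * 12 ^ k * C1 * (x / L) * ((P / ℓ) ^ k * P) := by
          rw [div_pow, div_pow, mul_pow, mul_pow]
          field_simp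
          ring
      _ ≤ 2 * 12 ^ k * C1 * (x / L) * (1 / P) := by gcongr
      _ = 2 * 12 ^ k * C1 * (x / (L * P)) := by field_simp
  calc _ ≤ (k + 1) * (x / (L * P)) + (k + 1) * (x / (L * P)) + 2 * 12 ^ k * C1 * (x / (L * P)) := by
        have := hW.trans t3
        linarith
    _ = (2 * (k + 1) + 2 * 12 ^ k * C1) * x / (L * P) := by ring

theorem thin (β : ℝ) (hβ : β < 1) : ∃ C > (0 : ℝ), ∃ x₀ : ℕ, ∀ (q : ℕ → ℕ) (n₀ : ℕ),
    (∀ n, (q n).Prime) → StrictMono q → (∀ n, n₀ ≤ n → (q (n + 1) - q n + 1).Prime) → ∀ x : ℕ, x₀ ≤ x →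
      ({n : ℕ | n₀ ≤ n ∧ q n ≤ x}.ncard : ℝ) ≤ C * x / (Real.log x * Real.log (Real.log x) ^ β) := by
  obtain ⟨C, hC, x0, h⟩ := thin_nonneg (max β 0) (le_max_right _ _) (max_lt hβ one_pos)
  have hL : Tendsto (fun x : ℕ => Real.log x) atTop atTop :=
    Real.tendsto_log_atTop.comp tendsto_natCast_atTop_atTop
  have hLL : Tendsto (fun x : ℕ => Real.log (Real.log x)) atTop atTop := Real.tendsto_log_atTop.comp hL
  obtain ⟨x2, hx2⟩ := eventually_atTop.1 ((hL.eventually_ge_atTop 1).and (hLL.eventually_ge_atTop 1))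
  refine ⟨C, hC, max x0 x2, fun q n₀ hp hq hg x hx => ?_⟩
  obtain ⟨h1, h2⟩ := hx2 x ((le_max_right _ _).trans hx)
  refine (h q n₀ hp hq hg x ((le_max_left _ _).trans hx)).trans ?_
  have h3 : Real.log (Real.log x) ^ β ≤ Real.log (Real.log x) ^ (max β 0) :=
    Real.rpow_le_rpow_of_exponent_le h2 (le_max_left _ _)
  have h4 : 0 < Real.log (Real.log x) ^ β := Real.rpow_pos_of_pos (by linarith) _
  gcongr

end Pool.Agent.H550U.Thin
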